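import Pool.Agent.H62P.Pkg

/-! The side step of the package: a component of `H - z` inside `S`. -/

namespace Pool.Agent.H62P

open List Pool.Agent.TF82 Pool.Agent.TFC Pool.Agent.TFB Pool.Agent.EG31 Pool.Agent.H18C

universe u

set_option linter.unusedSectionVars false
set_option linter.unusedVariables false

variable {V : Type u} [DecidableEq V]

theorem Pth.mono {G : SimpleGraph V} {H H' : Finset V} {a b : V} {n n' : ℕ}
    (h : Pth G H a b n) (hH : H ⊆ H') (hn : n' ≤ n) : Pth G H' a b n' := by
  obtain ⟨q, h1, h2, h3, h4⟩ := h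
  exact ⟨q, h1, h2, fun z hz => hH (h3 z hz), hn.trans h4⟩

theorem Pth.symm {G : SimpleGraph V} {H : Finset V} {a b : V} {n : ℕ}
    (h : Pth G H a b n) : Pth G H b a n := by
  obtain ⟨q, h1, h2, h3, h4⟩ := h
  exact ⟨q.reverse, h1.rev, List.nodup_reverse.2 h2, fun z hz => h3 z (List.mem_reverse.1 hz),
    by rw [List.length_reverse]; exact h4⟩

theorem Pth.of_conn {G : SimpleGraph V} {H : Finset V} (hH : Conn1 G H) {a b : V} (ha : a ∈ H)
    (hb : b ∈ H) : Pth G H a b 1 := by
  obtain ⟨q, h1, h2, h3⟩ := seg_of_reach (hH a ha b hb) ha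
  refine ⟨q, h1, h2, h3, ?_⟩
  have : q ≠ [] := by
    rintro rfl
    have := h1.hd
    simp at this
  exact List.length_pos_iff.2 this

/-- concatenation at a common vertex -/
theorem Pth.trans {G : SimpleGraph V} {A B C : Finset V} {a z b : V} {n m : ℕ}
    (h1 : Pth G A a z n) (h2 : Pth G B z b m) (hAB : ∀ x ∈ A, x ∈ B → x = z) (hA : A ⊆ C)
    (hB : B ⊆ C) : Pth G C a b (n + m - 1) := by
  obtain ⟨p, p1, p2, p3, p4⟩ := h1
  obtain ⟨q, q1, q2, q3, q4⟩ := h2
  have hp : p ≠ [] := by
    rintro rfl
    have := p1.hd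
    simp at this
  rcases q with _ | ⟨z', t⟩
  · have := q1.hd
    simp at this
  have hz : z' = z := by
    have := q1.hd
    simpa using this
  subst hz
  have htA : ∀ x ∈ t, x ∉ A := by
    intro x hx hxA
    have := hAB x hxA (q3 x (List.mem_cons_of_mem _ hx))
    subst this
    exact (List.nodup_cons.1 q2).1 hx
  refine ⟨p ++ t, ⟨?_, ?_, ?_⟩, ?_, ?_, ?_⟩
  · rw [List.isChain_append]
    have hq := q1.ch
    rw [List.isChain_cons] at hq
    refine ⟨p1.ch, hq.2, ?_⟩
    intro x hx y hy
    rw [p1.lt] at hx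
    have hx' : z' = x := by simpa using hx
    subst hx'
    exact hq.1 y hy
  · rw [List.head?_append_of_ne_nil _ hp]
    exact p1.hd
  · rcases t with _ | ⟨y, t⟩
    · rw [List.append_nil]
      have := q1.lt
      simp at this
      rw [← this]
      exact p1.lt
    · rw [List.getLast?_append]
      have := q1.lt
      rw [List.getLast?_cons_cons] at this
      rw [this]
      simp
  · rw [List.nodup_append]
    refine ⟨p2, (List.nodup_cons.1 q2).2, ?_⟩
    rintro x hx y hy rfl
    exact htA x hy (p3 x hx)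
  · intro x hx
    rcases List.mem_append.1 hx with hx | hx
    · exact hA (p3 x hx)
    · exact hB (q3 x (List.mem_cons_of_mem _ hx))
  · simp only [List.length_append, List.length_cons] at *
    omega

/-- the package passes from a side `z + X` with `z` optional to `H` -/
theorem sideStepP : SideStepP.{u} := by
  intro V _ G _ H S b f z C hK hf hz hcut hC hCS hIH
  obtain ⟨X, hX⟩ : ∃ X, X = (H.erase z) \ C := ⟨_, rfl⟩
  have hXs : Side G H z X := hX ▸ hC.rest
  have hCs : Side G H z C := hC.side
  have hzX : z ∉ X := hXs.znC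
  have hzC : z ∉ C := hC.znC
  have hXH : X ⊆ H := hXs.subH
  have hdis : Disjoint X C := by
    rw [hX]
    exact Finset.sdiff_disjoint
  have hall : ∀ x ∈ H, x = z ∨ x ∈ X ∨ x ∈ C := by
    intro x hx
    by_cases h : x = z
    · exact Or.inl h
    · by_cases h' : x ∈ C
      · exact Or.inr (Or.inr h')
      · right; left
        rw [hX]
        exact Finset.mem_sdiff.2 ⟨Finset.mem_erase.2 ⟨h, hx⟩, h'⟩
  have hHeq : insert z (X ∪ C) = H := by
    ext x
    rw [Finset.mem_insert, Finset.mem_union]
    constructor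
    · rintro (h | h | h)
      · rw [h]; exact hz
      · exact hXH h
      · exact hC.subH h
    · exact hall x
  have hcH : H.card = X.card + C.card + 1 := by
    rw [← hHeq, Finset.card_insert_of_notMem (by
      rw [Finset.mem_union]; push Not; exact ⟨hzX, hzC⟩), Finset.card_union_of_disjoint hdis]
  have hCpos : 1 ≤ C.card := Finset.card_pos.2 hC.ne
  obtain ⟨H', hH'⟩ : ∃ H', H' = insert z X := ⟨_, rfl⟩
  obtain ⟨S', hS'⟩ : ∃ S', S' = insert z (S ∩ X) := ⟨_, rfl⟩
  have hcH' : H'.card = X.card + 1 := by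
    rw [hH']
    exact Finset.card_insert_of_notMem hzX
  have hzS' : z ∈ S' := hS' ▸ Finset.mem_insert_self _ _
  have hScard : S'.card ≤ S.card := by
    rw [hS']
    have h1 : (insert z (S ∩ X)).card = (S ∩ X).card + 1 :=
      Finset.card_insert_of_notMem (fun h => hzX (Finset.mem_inter.1 h).2)
    have h2 : (S ∩ X).card + C.card ≤ S.card := by
      rw [← Finset.card_union_of_disjoint
        (Finset.disjoint_of_subset_left Finset.inter_subset_right hdis)]
      exact Finset.card_le_card (Finset.union_subset Finset.inter_subset_left hCS)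
    omega
  have hHH : H' ⊆ H := by
    rw [hH']
    exact hXs.insH
  have hsub : S' ⊆ H' := by
    rw [hS', hH']
    exact Finset.insert_subset_insert _ Finset.inter_subset_right
  -- vertices outside
  have hout : ∀ x ∈ H \ S, x ≠ z → x ∈ H' \ S' := by
    intro x hx hxz
    rw [Finset.mem_sdiff] at hx
    rcases hall x hx.1 with h | h | h
    · exact absurd h hxz
    · rw [hH', hS', Finset.mem_sdiff]
      refine ⟨Finset.mem_insert_of_mem h, fun h' => ?_⟩
      rcases Finset.mem_insert.1 h' with h' | h'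
      · exact hxz h'
      · exact hx.2 (Finset.mem_inter.1 h').1
    · exact absurd (hCS h) hx.2
  have hin : ∀ x ∈ H' \ S', x ∈ X ∧ x ∉ S := by
    intro x hx
    rw [hH', hS', Finset.mem_sdiff] at hx
    rcases Finset.mem_insert.1 hx.1 with h | h
    · exact absurd (h ▸ Finset.mem_insert_self _ _) hx.2
    · exact ⟨h, fun hS => hx.2 (Finset.mem_insert_of_mem (Finset.mem_inter.2 ⟨hS, h⟩))⟩
  have hIsub : ∀ I : Finset V, I ⊆ H' \ S' → I ⊆ H \ S := by
    intro I hI x hx
    obtain ⟨h1, h2⟩ := hin x (hI hx)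
    exact Finset.mem_sdiff.2 ⟨hXH h1, h2⟩
  have hd : ∀ v ∈ X, dU G H' v = dU G H v := by
    intro v hv
    rw [hH']
    exact hXs.dU_eq hv
  have hgood : ∀ v, Good G H' S' v → Good G H S v ∧ v ∈ X := by
    intro v hv
    have hvX : v ∈ X := (hin v (Finset.mem_sdiff.2 ⟨hv.mem, hv.nS⟩)).1
    rw [hH', hS'] at hv
    exact ⟨hXs.good_of hK.con hv hvX, hvX⟩
  have hne : (H' \ S').Nonempty := by
    obtain ⟨y, hy⟩ := hK.ne
    by_cases hyz : y = z
    · subst hyz
      have h1 := hK.cw {y} (by simpa using hy) (by simp) y (Finset.mem_singleton_self _)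
      rw [Finset.card_singleton] at h1
      have h2 : ¬ (H.filter (fun w => G.Adj y w)) ⊆ S := by
        intro h
        have := Finset.card_le_card h
        unfold dU at h1
        omega
      obtain ⟨w, hw, hwS⟩ := Finset.not_subset.1 h2
      rw [Finset.mem_filter] at hw
      exact ⟨w, hout w (Finset.mem_sdiff.2 ⟨hw.1, hwS⟩) (fun h => G.loopless.irrefl y (h ▸ hw.2))⟩
    · exact ⟨y, hout y hy hyz⟩
  have hK' : Kb G H' S' (b + (S.card - S'.card)) := by
    refine ⟨hsub, ?_, hne, ?_, ?_⟩
    · rw [hH']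
      exact hXs.conn_ins hK.con
    · intro I hI hi v hv
      have h1 := hK.cw I (hIsub I hI) hi v hv
      rw [hd v (hin v (hI hv)).1]
      omega
    · intro I hI hi v hv hg
      have h1 := hK.sur I (hIsub I hI) hi v hv (hgood v hg).1
      rw [hd v (hin v (hI hv)).1]
      omega
  obtain ⟨f', hf'⟩ := hK'.cov
  have hff : f ≤ f' := by
    apply hf.le
    obtain ⟨L, l1, l2, l3, l4⟩ := hf'.1
    by_cases hzS : z ∈ S
    · refine ⟨L, l1, l2, fun x hx => hHH (l3 x hx), fun x hx => l4 x (hout x hx ?_)⟩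
      rintro rfl
      exact (Finset.mem_sdiff.1 hx).2 hzS
    · refine absorb hK.sub (z := z) (Finset.mem_sdiff.2 ⟨hz, hzS⟩) ?_ ?_
      · intro I hI hi hzI
        exact hK.cw I hI hi z hzI
      · exact ⟨L, l1, l2, fun x hx => hHH (l3 x hx), fun x hx hxz => l4 x (hout x hx hxz)⟩
  obtain ⟨I, hI⟩ := hIH H' S' _ f' (by omega) hK' hf'
  have hmin : min 1 S'.card = 1 := by
    have : 1 ≤ S'.card := Finset.card_pos.2 ⟨z, hzS'⟩
    omega
  have hmin2 : min 1 S.card ≤ 1 := min_le_left _ _
  obtain ⟨J, hJI, hJc⟩ := Finset.exists_subset_card_eq (hI.card ▸ hff : f ≤ I.card)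
  refine ⟨J, ?_, ?_, hJc, ?_, ?_, ?_, ?_⟩
  · exact fun v hv => (hgood v (hI.good v (hJI hv))).1
  · exact fun a ha c hc => hI.ind (hJI ha) (hJI hc)
  · intro N hN hnear
    have h1 := hI.near (N ∩ H') Finset.inter_subset_right (by
      intro x hx y hy
      rw [Finset.mem_inter] at hx hy
      have := near_in_side hXs hK.con (hH' ▸ hx.2) (hH' ▸ hy.2) (hnear x hx.1 y hy.1)
      rwa [← hH', ← hS'] at this)
    have h2 : ∑ v ∈ J, dU G H v ≤ ∑ v ∈ I, dU G H' v := by
      calc ∑ v ∈ J, dU G H v = ∑ v ∈ J, dU G H' v :=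
            Finset.sum_congr rfl fun v hv => (hd v (hgood v (hI.good v (hJI hv))).2).symm
        _ ≤ _ := Finset.sum_le_sum_of_subset hJI
    have h3 : N.card ≤ (N ∩ H').card + C.card := by
      have : N ⊆ (N ∩ H') ∪ C := by
        intro x hx
        rcases hall x (hN hx) with h | h | h
        · exact Finset.mem_union_left _ (Finset.mem_inter.2 ⟨hx, by
            rw [hH', h]; exact Finset.mem_insert_self _ _⟩)
        · exact Finset.mem_union_left _ (Finset.mem_inter.2 ⟨hx, by
            rw [hH']; exact Finset.mem_insert_of_mem h⟩)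
        · exact Finset.mem_union_right _ h
      exact (Finset.card_le_card this).trans (Finset.card_union_le _ _)
    omega
  · intro M hM hMne
    obtain ⟨v, hv, hvx⟩ := hI.p1 M (hM.trans hJI) hMne
    have hvg := hI.good v (hJI (hM hv))
    refine ⟨v, hv, ?_⟩
    intro x hx hxv
    by_cases hxH : x ∈ H'
    · exact (hvx x hxH hxv).mono hHH (by omega)
    · have hxC : x ∈ C := by
        rcases hall x hx with h | h | h
        · exact absurd (hH' ▸ h ▸ Finset.mem_insert_self _ _) hxH
        · exact absurd (hH' ▸ Finset.mem_insert_of_mem h) hxH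
        · exact h
      have hzv : z ≠ v := fun h => hvg.nS (h ▸ hzS')
      have h1 := hvx z (by rw [hH']; exact Finset.mem_insert_self _ _) hzv
      have h2 : Pth G (insert z C) z x 1 := Pth.of_conn (hCs.conn_ins hK.con)
        (Finset.mem_insert_self _ _) (Finset.mem_insert_of_mem hxC)
      have h3 := h1.trans h2 (C := H) (by
        intro y hy hy'
        rw [hH'] at hy
        rcases Finset.mem_insert.1 hy with h | h
        · exact h
        · rcases Finset.mem_insert.1 hy' with h' | h'
          · exact h'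
          · exact absurd h' (Finset.disjoint_left.1 hdis h)) hHH hCs.insH
      exact h3.mono (Finset.Subset.refl _) (by omega)
  · intro M hM M' hM' hMne hMne' hno
    obtain ⟨v, hv, v', hv', hvv, hp⟩ := hI.p2 M (hM.trans hJI) M' (hM'.trans hJI) hMne hMne' hno
    exact ⟨v, hv, v', hv', hvv, hp.mono hHH (by omega)⟩
  · obtain ⟨D, hD, hDc, hDp⟩ := hI.co
    exact ⟨D, hD.trans hHH, hDc, fun x hx x' hx' hne =>
      (hDp x hx x' hx' hne).mono (Finset.Subset.refl _) (by omega)⟩

end Pool.Agent.H62P
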