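import Pool.Agent.H62P.SideP

/-! Transfer of the package between `H` and the subtype. -/

namespace Pool.Agent.H62P

open List Pool.Agent.TF82 Pool.Agent.TFC Pool.Agent.TFB Pool.Agent.EG31 Pool.Agent.H18C

universe u

set_option linter.unusedSectionVars false
set_option linter.unusedVariables false

variable {V : Type u} [DecidableEq V]

/-- the graph on the subtype -/
abbrev SubG (G : SimpleGraph V) (H : Finset V) : SimpleGraph {x // x ∈ H} :=
  G.comap (Subtype.val : {x // x ∈ H} → V)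

/-- the embedding -/
abbrev SubE (H : Finset V) : {x // x ∈ H} ↪ V := ⟨Subtype.val, Subtype.val_injective⟩

theorem Seg.map_sub {G : SimpleGraph V} {H : Finset V} {l : List {x // x ∈ H}}
    {a b : {x // x ∈ H}} (h : Seg (SubG G H) l a b) : Seg G (l.map Subtype.val) a.1 b.1 := by
  refine ⟨?_, ?_, ?_⟩
  · rw [List.isChain_map]
    exact h.ch
  · rw [List.head?_map, h.hd]
    rfl
  · rw [List.getLast?_map, h.lt]
    rfl

/-- lift of a list inside `H` -/
def lift (H : Finset V) (l : List V) (h : ∀ x ∈ l, x ∈ H) : List {x // x ∈ H} :=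
  l.attach.map (fun x => ⟨x.1, h x.1 x.2⟩)

theorem lift_val {H : Finset V} {l : List V} (h : ∀ x ∈ l, x ∈ H) :
    (lift H l h).map Subtype.val = l := by
  unfold lift
  rw [List.map_map]
  exact List.attach_map_subtype_val l

theorem lift_nodup {H : Finset V} {l : List V} (h : ∀ x ∈ l, x ∈ H) (hn : l.Nodup) :
    (lift H l h).Nodup := by
  apply List.Nodup.of_map Subtype.val
  rw [lift_val]
  exact hn

theorem lift_length {H : Finset V} {l : List V} (h : ∀ x ∈ l, x ∈ H) :
    (lift H l h).length = l.length := by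
  rw [← List.length_map (f := Subtype.val), lift_val]

theorem lift_chain {G : SimpleGraph V} {H : Finset V} {l : List V} (h : ∀ x ∈ l, x ∈ H)
    (hc : l.IsChain G.Adj) : (lift H l h).IsChain (SubG G H).Adj := by
  have : ((lift H l h).map Subtype.val).IsChain G.Adj := by
    rw [lift_val]
    exact hc
  rwa [List.isChain_map] at this

theorem lift_seg {G : SimpleGraph V} {H : Finset V} {l : List V} (h : ∀ x ∈ l, x ∈ H)
    {a b : {x // x ∈ H}} (hs : Seg G l a.1 b.1) : Seg (SubG G H) (lift H l h) a b := by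
  refine ⟨lift_chain h hs.ch, ?_, ?_⟩
  · have h1 : ((lift H l h).map Subtype.val).head? = some a.1 := by
      rw [lift_val]
      exact hs.hd
    rw [List.head?_map] at h1
    rcases h2 : (lift H l h).head? with _ | x
    · rw [h2] at h1; simp at h1
    · rw [h2] at h1
      simp only [Option.map_some, Option.some.injEq] at h1
      rw [Subtype.ext h1]
  · have h1 : ((lift H l h).map Subtype.val).getLast? = some b.1 := by
      rw [lift_val]
      exact hs.lt
    rw [List.getLast?_map] at h1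
    rcases h2 : (lift H l h).getLast? with _ | x
    · rw [h2] at h1; simp at h1
    · rw [h2] at h1
      simp only [Option.map_some, Option.some.injEq] at h1
      rw [Subtype.ext h1]

theorem lift_cyc {G : SimpleGraph V} {H : Finset V} {l : List V} (h : ∀ x ∈ l, x ∈ H)
    (hc : CycL G l) : CycL (SubG G H) (lift H l h) := by
  obtain ⟨h1, h2, h3, h4⟩ := hc
  refine ⟨lift_nodup h h1, by rw [lift_length]; exact h2, lift_chain h h3, ?_⟩
  intro x hx y hy
  refine h4 x.1 ?_ y.1 ?_
  · have : ((lift H l h).map Subtype.val).getLast? = some x.1 := by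
      rw [List.getLast?_map, Option.mem_def.1 hx]; rfl
    rw [lift_val] at this
    exact this
  · have : ((lift H l h).map Subtype.val).head? = some y.1 := by
      rw [List.head?_map, Option.mem_def.1 hy]; rfl
    rw [lift_val] at this
    exact this

theorem mem_lift {H : Finset V} {l : List V} (h : ∀ x ∈ l, x ∈ H) {x : {x // x ∈ H}} :
    x ∈ lift H l h ↔ x.1 ∈ l := by
  constructor
  · intro hx
    have : x.1 ∈ (lift H l h).map Subtype.val := List.mem_map.2 ⟨x, hx, rfl⟩
    rwa [lift_val] at this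
  · intro hx
    have : x.1 ∈ (lift H l h).map Subtype.val := by rw [lift_val]; exact hx
    obtain ⟨y, hy, hyx⟩ := List.mem_map.1 this
    rwa [← Subtype.ext hyx]

/-- covers go to the subtype -/
theorem CovW.to_sub {G : SimpleGraph V} {H S : Finset V} {k : ℕ} (h : CovW G H S k) :
    CovW (SubG G H) Finset.univ (subW H S) k := by
  obtain ⟨L, h1, h2, h3, h4⟩ := h
  have hl : ∀ c ∈ L, ∀ x ∈ c, x ∈ H := fun c hc x hx =>
    h3 x (List.mem_flatten.2 ⟨c, hc, hx⟩)
  obtain ⟨M, hM⟩ : ∃ M : List (List {x // x ∈ H}), M.map (fun l => l.map Subtype.val) = L := by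
    refine ⟨L.attach.map (fun c => lift H c.1 (hl c.1 c.2)), ?_⟩
    rw [List.map_map]
    calc List.map ((fun l => List.map Subtype.val l) ∘ fun c => lift H c.1 (hl c.1 c.2)) L.attach
        = L.attach.map Subtype.val := by
          apply List.map_congr_left
          intro c _
          exact lift_val _
      _ = L := List.attach_map_subtype_val L
  have hMf : M.flatten.map Subtype.val = L.flatten := by
    rw [List.map_flatten, ← hM]
  refine ⟨M, ?_, ⟨?_, ?_⟩, fun x _ => Finset.mem_univ x, ?_⟩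
  · rw [← hM] at h1
    simpa using h1
  · intro c hc
    have hc' : c.map Subtype.val ∈ L := by
      rw [← hM]
      exact List.mem_map.2 ⟨c, hc, rfl⟩
    have h5 := h2.cyc _ hc'
    have h6 : c = lift H (c.map Subtype.val) (fun x hx => by
        obtain ⟨y, _, rfl⟩ := List.mem_map.1 hx
        exact y.2) := by
      apply List.map_injective_iff.2 Subtype.val_injective
      rw [lift_val]
    rw [h6]
    exact lift_cyc _ h5
  · apply List.Nodup.of_map Subtype.val
    rw [hMf]
    exact h2.nod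
  · intro x hx
    have : x.1 ∈ L.flatten := h4 x.1 (Finset.mem_sdiff.2 ⟨x.2, fun h =>
      (Finset.mem_sdiff.1 hx).2 (mem_subW.2 h)⟩)
    rw [← hMf] at this
    obtain ⟨y, hy, hyx⟩ := List.mem_map.1 this
    rwa [← Subtype.ext hyx]

theorem MinCov.to_sub {G : SimpleGraph V} {H S : Finset V} {f : ℕ} (h : MinCov G H S f) :
    MinCov (SubG G H) Finset.univ (subW H S) f :=
  ⟨h.1.to_sub, fun k hk hc => h.2 k hk hc.of_sub⟩

/-- reachability -/
theorem reach_of_sub {G : SimpleGraph V} {H : Finset V} {A : Finset {x // x ∈ H}}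
    {B : Finset V} (hAB : ∀ x ∈ A, x.1 ∈ B) {a b : {x // x ∈ H}} (h : Reach (SubG G H) A a b) :
    Reach G B a.1 b.1 := by
  unfold Reach at *
  induction h with
  | refl => exact Relation.ReflTransGen.refl
  | tail _ hbc ih => exact ih.tail ⟨hAB _ hbc.1, hAB _ hbc.2.1, hbc.2.2⟩

theorem reach_to_sub {G : SimpleGraph V} {H : Finset V} {A : Finset {x // x ∈ H}}
    {B : Finset V} (hBA : ∀ x (hx : x ∈ H), x ∈ B → (⟨x, hx⟩ : {x // x ∈ H}) ∈ A)
    {a : V} (ha : a ∈ H) {b : V} (h : Reach G B a b) (hB : B ⊆ H) :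
    ∃ hb : b ∈ H, Reach (SubG G H) A ⟨a, ha⟩ ⟨b, hb⟩ := by
  unfold Reach at *
  induction h with
  | refl => exact ⟨ha, Relation.ReflTransGen.refl⟩
  | @tail b c _ hbc ih =>
    obtain ⟨hb, h1⟩ := ih
    exact ⟨hB hbc.2.1, h1.tail ⟨hBA b hb hbc.1, hBA c _ hbc.2.1, hbc.2.2⟩⟩

theorem conn_to_sub {G : SimpleGraph V} {H B : Finset V} (hB : B ⊆ H)
    {A : Finset {x // x ∈ H}} (hAB : ∀ x, x ∈ A ↔ x.1 ∈ B) (h : Conn1 G B) :
    Conn1 (SubG G H) A := by
  intro a ha b hb
  obtain ⟨_, h1⟩ := reach_to_sub (G := G) (A := A) (fun x hx hxB => (hAB ⟨x, hx⟩).2 hxB) a.2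
    (h a.1 ((hAB a).1 ha) b.1 ((hAB b).1 hb)) hB
  exact h1

theorem conn_of_sub {G : SimpleGraph V} {H B : Finset V} (hB : B ⊆ H)
    {A : Finset {x // x ∈ H}} (hAB : ∀ x, x ∈ A ↔ x.1 ∈ B) (h : Conn1 (SubG G H) A) :
    Conn1 G B := by
  intro a ha b hb
  exact reach_of_sub (B := B) (fun x hx => (hAB x).1 hx)
    (h ⟨a, hB ha⟩ ((hAB _).2 ha) ⟨b, hB hb⟩ ((hAB _).2 hb))

theorem mem_univ_erase {H : Finset V} (v x : {x // x ∈ H}) :
    x ∈ (Finset.univ : Finset {x // x ∈ H}).erase v ↔ x.1 ∈ H.erase v.1 := by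
  rw [Finset.mem_erase, Finset.mem_erase]
  constructor
  · rintro ⟨h1, -⟩
    exact ⟨fun h => h1 (Subtype.ext h), x.2⟩
  · rintro ⟨h1, -⟩
    exact ⟨fun h => h1 (by rw [h]), Finset.mem_univ _⟩

theorem good_sub_iff {G : SimpleGraph V} {H S : Finset V} (v : {x // x ∈ H}) :
    Good (SubG G H) Finset.univ (subW H S) v ↔ Good G H S v.1 := by
  constructor
  · intro h
    exact ⟨v.2, fun hS => h.nS (mem_subW.2 hS),
      conn_of_sub (Finset.erase_subset _ _) (mem_univ_erase v) h.nc⟩
  · intro h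
    exact ⟨Finset.mem_univ _, fun hS => h.nS (mem_subW.1 hS),
      conn_to_sub (Finset.erase_subset _ _) (mem_univ_erase v) h.nc⟩

theorem near_to_sub {G : SimpleGraph V} {H S : Finset V} {x x' : {x // x ∈ H}}
    (h : Near G H S x.1 x'.1) : Near (SubG G H) Finset.univ (subW H S) x x' := by
  intro hne v hv
  obtain ⟨w, hw, hwv, s1, s2⟩ := h (fun h => hne (Subtype.ext h)) v.1 ((good_sub_iff v).1 hv)
  have key : ∀ y : {x // x ∈ H}, SepV G H w v.1 y.1 →
      SepV (SubG G H) Finset.univ (⟨w, hw⟩ : {x // x ∈ H}) v y := by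
    intro y hs
    rcases hs with hs | hs
    · exact Or.inl (Subtype.ext hs)
    · right
      intro hr
      exact hs (reach_of_sub (fun z hz => (mem_univ_erase _ z).1 hz) hr)
  exact ⟨⟨w, hw⟩, Finset.mem_univ _, fun h => hwv (by rw [← h]), key x s1, key x' s2⟩

theorem pth_of_sub {G : SimpleGraph V} {H : Finset V} {A : Finset {x // x ∈ H}} {B : Finset V}
    (hAB : ∀ x ∈ A, x.1 ∈ B) {a b : {x // x ∈ H}} {n : ℕ} (h : Pth (SubG G H) A a b n) :
    Pth G B a.1 b.1 n := by
  obtain ⟨q, h1, h2, h3, h4⟩ := h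
  refine ⟨q.map Subtype.val, Seg.map_sub h1, h2.map Subtype.val_injective, ?_, by
    rw [List.length_map]; exact h4⟩
  intro z hz
  obtain ⟨y, hy, rfl⟩ := List.mem_map.1 hz
  exact hAB y (h3 y hy)

theorem transferP : TransferP.{u} := by
  intro V _ G _ H S b f hK hf h2
  have hmapS : ∀ I : Finset {x // x ∈ H}, I ⊆ Finset.univ \ subW H S →
      I.map (SubE H) ⊆ H \ S := by
    intro I hI x hx
    obtain ⟨y, hy, rfl⟩ := Finset.mem_map.1 hx
    exact Finset.mem_sdiff.2 ⟨y.2, fun h => (Finset.mem_sdiff.1 (hI hy)).2 (mem_subW.2 h)⟩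
  have hmapI : ∀ I : Finset {x // x ∈ H}, (SubG G H).IsIndepSet (I : Set {x // x ∈ H}) →
      G.IsIndepSet ((I.map (SubE H) : Finset V) : Set V) := by
    intro I hI x hx y hy hxy
    obtain ⟨x', hx', rfl⟩ := Finset.mem_map.1 (Finset.mem_coe.1 hx)
    obtain ⟨y', hy', rfl⟩ := Finset.mem_map.1 (Finset.mem_coe.1 hy)
    exact hI hx' hy' (fun h => hxy (by rw [h]))
  refine ⟨⟨Finset.subset_univ _, ?_, ?_, hK.cw.sub hK.sub, ?_⟩, hf.to_sub, ?_, ?_⟩
  · exact conn_to_sub (Finset.Subset.refl H) (fun x => by simp) hK.con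
  · obtain ⟨x, hx⟩ := hK.ne
    rw [Finset.mem_sdiff] at hx
    exact ⟨⟨x, hx.1⟩, Finset.mem_sdiff.2 ⟨Finset.mem_univ _, fun h => hx.2 (mem_subW.1 h)⟩⟩
  · intro I hI hi v hv hg
    have h1 := hK.sur (I.map (SubE H)) (hmapS I hI) (hmapI I hi) v.1
      (Finset.mem_map.2 ⟨v, hv, rfl⟩) ((good_sub_iff v).1 hg)
    rw [Finset.card_map] at h1
    rw [dU_sub, card_subW hK.sub]
    exact h1
  · intro z _
    exact conn_to_sub (Finset.erase_subset _ _) (mem_univ_erase z) (h2 z.1 z.2)
  · intro I hI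
    have hcS : (subW H S).card = S.card := card_subW hK.sub
    have hgood : ∀ v ∈ I.map (SubE H), Good G H S v := by
      intro v hv
      obtain ⟨y, hy, rfl⟩ := Finset.mem_map.1 hv
      exact (good_sub_iff y).1 (hI.good y hy)
    -- preimages of subsets
    have hpre : ∀ M ⊆ I.map (SubE H), ∃ M' ⊆ I, M'.map (SubE H) = M := by
      intro M hM
      refine ⟨I.filter (fun x => x.1 ∈ M), Finset.filter_subset _ _, ?_⟩
      ext x
      rw [Finset.mem_map]
      constructor
      · rintro ⟨y, hy, rfl⟩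
        exact (Finset.mem_filter.1 hy).2
      · intro hx
        obtain ⟨y, hy, hyx⟩ := Finset.mem_map.1 (hM hx)
        refine ⟨y, Finset.mem_filter.2 ⟨hy, ?_⟩, hyx⟩
        have : y.1 = x := hyx
        rw [this]
        exact hx
    refine ⟨hgood, hmapI I hI.ind, by rw [Finset.card_map, hI.card], ?_, ?_, ?_, ?_⟩
    · intro N hN hnear
      obtain ⟨N', hN'⟩ : ∃ N' : Finset {x // x ∈ H}, N' = subW H N := ⟨_, rfl⟩
      have h1 := hI.near N' (Finset.subset_univ _) (by
        intro x hx y hy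
        rw [hN', mem_subW] at hx hy
        exact near_to_sub (hnear x.1 hx y.1 hy))
      rw [hN', card_subW hN, Finset.card_univ, Fintype.card_coe] at h1
      rw [Finset.sum_map]
      have h2 : ∑ v ∈ I, dU G H ((SubE H) v) = ∑ v ∈ I, dU (SubG G H) Finset.univ v :=
        Finset.sum_congr rfl fun v _ => (dU_sub v).symm
      rw [h2]
      exact h1
    · intro M hM hMne
      obtain ⟨M', hM', rfl⟩ := hpre M hM
      obtain ⟨v, hv, hvx⟩ := hI.p1 M' hM' (Finset.map_nonempty.1 hMne)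
      refine ⟨v.1, Finset.mem_map.2 ⟨v, hv, rfl⟩, ?_⟩
      intro x hx hxv
      have h1 := hvx ⟨x, hx⟩ (Finset.mem_univ _) (fun h => hxv (by rw [← h]))
      rw [Finset.card_map]
      rw [hcS] at h1
      exact pth_of_sub (a := v) (b := ⟨x, hx⟩) (fun y _ => y.2) h1
    · intro M hM N hN hMne hNne hno
      obtain ⟨M', hM', rfl⟩ := hpre M hM
      obtain ⟨N', hN', rfl⟩ := hpre N hN
      obtain ⟨v, hv, v', hv', hvv, hp⟩ := hI.p2 M' hM' N' hN' (Finset.map_nonempty.1 hMne)
        (Finset.map_nonempty.1 hNne) (fun h => hno ⟨by rw [h.1], by rw [Finset.card_map, h.2]⟩)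
      refine ⟨v.1, Finset.mem_map.2 ⟨v, hv, rfl⟩, v'.1, Finset.mem_map.2 ⟨v', hv', rfl⟩,
        fun h => hvv (Subtype.ext h), ?_⟩
      rw [Finset.card_map, Finset.card_map]
      rw [hcS] at hp
      exact pth_of_sub (a := v) (b := v') (fun y _ => y.2) hp
    · obtain ⟨D, hD, hDc, hDp⟩ := hI.co
      refine ⟨D.map (SubE H), ?_, by rw [Finset.card_map]; exact hDc, ?_⟩
      · intro x hx
        obtain ⟨y, hy, rfl⟩ := Finset.mem_map.1 hx
        exact y.2
      · intro x hx x' hx' hne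
        obtain ⟨y, hy, rfl⟩ := Finset.mem_map.1 hx
        obtain ⟨y', hy', rfl⟩ := Finset.mem_map.1 hx'
        have h1 := hDp y hy y' hy' (fun h => hne (by rw [h]))
        rw [hcS] at h1
        exact pth_of_sub (a := y) (b := y') (fun z hz => Finset.mem_map.2 ⟨z, hz, rfl⟩) h1

end Pool.Agent.H62P
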