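import Pool.Agent.H62P.SkelK

/-! The components of the uncovered part: representatives, covers, independent sets, degree sums. -/

namespace Pool.Agent.H62P

open List Pool.Agent.TF82 Pool.Agent.TFC Pool.Agent.TFB

universe u

set_option linter.unusedSectionVars false
set_option linter.unusedVariables false

variable {V : Type u} [DecidableEq V]

/-- a longest cycle -/
theorem exists_longest [Fintype V] {G : SimpleGraph V} {c0 : List V} (hc0 : CycL G c0) :
    ∃ c, IsMax G 1 [c] := by
  classical
  let P : ℕ → Prop := fun n => ∃ c, CycL G c ∧ c.length = n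
  have hb : ∀ n, P n → n ≤ Fintype.card V := by
    rintro n ⟨c, hc, rfl⟩
    exact hc.1.length_le_card
  have hP : P (Nat.findGreatest P (Fintype.card V)) :=
    Nat.findGreatest_spec (P := P) (hb _ ⟨c0, hc0, rfl⟩) ⟨c0, hc0, rfl⟩
  obtain ⟨c, hc, hl⟩ := hP
  refine ⟨c, ⟨?_, ?_⟩, by simp, ?_⟩
  · intro d hd
    rw [List.mem_singleton] at hd
    exact hd ▸ hc
  · simpa using hc.1
  · intro L' hL' hlen
    rcases L' with _ | ⟨d, L'⟩
    · simp
    · have : L' = [] := by
        rcases L' with _ | ⟨e, L'⟩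
        · rfl
        · simp at hlen
      subst this
      have hd : CycL G d := hL'.cyc d (by simp)
      have h1 : d.length ≤ Nat.findGreatest P (Fintype.card V) :=
        Nat.le_findGreatest (hb _ ⟨d, hd, rfl⟩) ⟨d, hd, rfl⟩
      simpa [hl] using h1

/-- (G1) a longest cycle exists -/
theorem exists_main_cycle [Fintype V] {G : SimpleGraph V} [DecidableRel G.Adj] {W : Finset V}
    (hC : CW G Finset.univ W) (hne : ((Finset.univ : Finset V) \ W).Nonempty) :
    ∃ c, IsMax G 1 [c] := by
  obtain ⟨L, -, h2, -, h4⟩ := exists_cov (Finset.subset_univ W) hC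
  obtain ⟨x, hx⟩ := hne
  obtain ⟨c, hc, -⟩ := List.mem_flatten.1 (h4 x hx)
  exact exists_longest (h2.cyc c hc)

/-- representatives of the components of the uncovered part -/
structure Reps [Fintype V] (G : SimpleGraph V) (L : List (List V)) (R : Finset V) : Prop where
  sub : R ⊆ unc L
  cov : ∀ x ∈ unc L, ∃ y ∈ R, x ∈ comp G L y
  dis : ∀ y ∈ R, ∀ y' ∈ R, y ≠ y' → Disjoint (comp G L y) (comp G L y')
  no : ∀ y ∈ R, ∀ y' ∈ R, y ≠ y' → ∀ a ∈ comp G L y, ∀ b ∈ comp G L y', ¬ G.Adj a b

/-- (G2) -/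
theorem exists_reps [Fintype V] (G : SimpleGraph V) (L : List (List V)) :
    ∃ R, Reps G L R := by
  classical
  let s : Setoid V :=
    { r := fun a b => Reach G (unc L) a b
      iseqv := ⟨fun a => Relation.ReflTransGen.refl, fun h => Reach.symm h,
        fun h h' => Relation.ReflTransGen.trans h h'⟩ }
  let f : V → V := fun x => (Quotient.mk s x).out
  have hf : ∀ x, Reach G (unc L) (f x) x := fun x => Quotient.exact (Quotient.out_eq (Quotient.mk s x))
  have hff : ∀ x x', Reach G (unc L) x x' → f x = f x' := by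
    intro x x' h
    have : Quotient.mk s x = Quotient.mk s x' := Quotient.sound h
    simp only [f, this]
  have hne : ∀ y ∈ (unc L).image f, ∀ y' ∈ (unc L).image f, y ≠ y' →
      ∀ a, Reach G (unc L) y a → ∀ b, Reach G (unc L) y' b → ¬ Reach G (unc L) a b := by
    intro y hy y' hy' hyy a ha b hb hab
    obtain ⟨x, hx, rfl⟩ := Finset.mem_image.1 hy
    obtain ⟨x', hx', rfl⟩ := Finset.mem_image.1 hy'
    refine hyy ?_
    have h1 : Reach G (unc L) x x' :=
      Relation.ReflTransGen.trans (Reach.symm (hf x)) (Relation.ReflTransGen.trans ha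
        (Relation.ReflTransGen.trans hab (Relation.ReflTransGen.trans (Reach.symm hb) (hf x'))))
    exact hff _ _ h1
  refine ⟨(unc L).image f, ?_, ?_, ?_, ?_⟩
  · intro y hy
    obtain ⟨x, hx, rfl⟩ := Finset.mem_image.1 hy
    exact reach_unc hx (Reach.symm (hf x))
  · intro x hx
    exact ⟨f x, Finset.mem_image_of_mem f hx, mem_comp.2 ⟨hx, hf x⟩⟩
  · intro y hy y' hy' hyy
    rw [Finset.disjoint_left]
    intro a ha ha'
    exact hne y hy y' hy' hyy a (mem_comp.1 ha).2 a (mem_comp.1 ha').2 Relation.ReflTransGen.refl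
  · intro y hy y' hy' hyy a ha b hb hab
    exact hne y hy y' hy' hyy a (mem_comp.1 ha).2 b (mem_comp.1 hb).2
      (Relation.ReflTransGen.single ⟨(mem_comp.1 ha).1, (mem_comp.1 hb).1, hab⟩)

theorem Reps.biUnion [Fintype V] {G : SimpleGraph V} {L : List (List V)} {R : Finset V}
    (hR : Reps G L R) : R.biUnion (comp G L) = unc L := by
  ext x
  rw [Finset.mem_biUnion]
  constructor
  · rintro ⟨y, -, hx⟩
    exact (mem_comp.1 hx).1
  · intro hx
    exact hR.cov x hx

theorem Reps.card [Fintype V] {G : SimpleGraph V} {L : List (List V)} {R : Finset V}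
    (hR : Reps G L R) : (unc L).card = ∑ y ∈ R, (comp G L y).card := by
  rw [← hR.biUnion]
  exact Finset.card_biUnion (fun y hy y' hy' h => hR.dis y hy y' hy' h)

theorem card_flatten_add [Fintype V] {G : SimpleGraph V} {L : List (List V)} (hL : Fam G L) :
    L.flatten.length + (unc L).card = Fintype.card V := by
  have h1 : L.flatten.toFinset.card = L.flatten.length := List.toFinset_card_of_nodup hL.nod
  have h2 : unc L = L.flatten.toFinsetᶜ := by
    ext x
    rw [mem_unc, Finset.mem_compl, List.mem_toFinset]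
  rw [← h1, h2]
  exact Finset.card_add_card_compl _

/-- the number of vertices -/
theorem Reps.card_univ [Fintype V] {G : SimpleGraph V} {L : List (List V)} {R : Finset V}
    (hL : Fam G L) (hR : Reps G L R) :
    (Finset.univ : Finset V).card = L.flatten.length + ∑ y ∈ R, (comp G L y).card := by
  rw [← hR.card, card_flatten_add hL, Finset.card_univ]

/-- covers of the components, one by one -/
theorem cov_biUnion [Fintype V] {G : SimpleGraph V} {L : List (List V)} {W : Finset V}
    (m : V → ℕ) (R : Finset V)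
    (hd : ∀ y ∈ R, ∀ y' ∈ R, y ≠ y' → Disjoint (comp G L y) (comp G L y'))
    (h : ∀ y ∈ R, CovW G (comp G L y) (W ∩ comp G L y) (m y)) :
    CovW G (R.biUnion (comp G L)) (W ∩ R.biUnion (comp G L)) (∑ y ∈ R, m y) := by
  induction R using Finset.induction with
  | empty => exact ⟨[], by simp, ⟨by simp, by simp⟩, by simp, by simp⟩
  | insert a R ha ih =>
    rw [Finset.sum_insert ha, Finset.biUnion_insert, Finset.inter_union_distrib_left]
    refine CovW.union ?_ (h a (Finset.mem_insert_self _ _))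
      (ih (fun y hy y' hy' => hd y (Finset.mem_insert_of_mem hy) y' (Finset.mem_insert_of_mem hy'))
        (fun y hy => h y (Finset.mem_insert_of_mem hy)))
    rw [Finset.disjoint_biUnion_right]
    intro y hy
    refine hd a (Finset.mem_insert_self _ _) y (Finset.mem_insert_of_mem hy) ?_
    rintro rfl
    exact ha hy

/-- (G3) the family together with covers of the components -/
theorem Reps.cov_univ [Fintype V] {G : SimpleGraph V} {L : List (List V)} {R W : Finset V}
    (hL : Fam G L) (hR : Reps G L R) (m : V → ℕ)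
    (h : ∀ y ∈ R, CovW G (comp G L y) (W ∩ comp G L y) (m y)) :
    CovW G Finset.univ W (L.length + ∑ y ∈ R, m y) := by
  have h1 := cov_biUnion (W := W) m R hR.dis h
  have h2 : CovW G L.flatten.toFinset (W ∩ L.flatten.toFinset) L.length :=
    ⟨L, le_rfl, hL, fun x hx => List.mem_toFinset.2 hx, fun x hx =>
      List.mem_toFinset.1 (Finset.mem_sdiff.1 hx).1⟩
  have hU : L.flatten.toFinset ∪ R.biUnion (comp G L) = Finset.univ := by
    rw [hR.biUnion]
    ext x
    simp only [Finset.mem_union, List.mem_toFinset, mem_unc, Finset.mem_univ, iff_true]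
    exact em _
  have h3 := CovW.union ?_ h2 h1
  · rw [hU, ← Finset.inter_union_distrib_left, hU, Finset.inter_univ] at h3
    exact h3
  · rw [hR.biUnion, Finset.disjoint_left]
    intro x hx hx'
    exact mem_unc.1 hx' (List.mem_toFinset.1 hx)

/-- the same as a lower bound: no cover with `k` cycles, and the components need `m y` each -/
theorem Reps.lt_of_not_cov [Fintype V] {G : SimpleGraph V} {c : List V} {R W : Finset V} {k : ℕ}
    (hL : Fam G [c]) (hR : Reps G [c] R) (m : V → ℕ)
    (h : ∀ y ∈ R, CovW G (comp G [c] y) (W ∩ comp G [c] y) (m y))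
    (hk : ¬ CovW G Finset.univ W k) : k ≤ ∑ y ∈ R, m y := by
  by_contra hlt
  refine hk ((hR.cov_univ hL m h).mono ?_)
  simp
  omega

/-- (G4) the independent sets of the components -/
theorem Reps.indep [Fintype V] {G : SimpleGraph V} {L : List (List V)} {R : Finset V}
    (hR : Reps G L R) {I : V → Finset V} (hI : ∀ y ∈ R, I y ⊆ comp G L y)
    (hi : ∀ y ∈ R, G.IsIndepSet (I y : Set V)) :
    G.IsIndepSet ((R.biUnion I : Finset V) : Set V) := by
  intro a ha b hb hab
  rw [Finset.mem_coe, Finset.mem_biUnion] at ha hb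
  obtain ⟨y, hy, ha⟩ := ha
  obtain ⟨y', hy', hb⟩ := hb
  by_cases h : y = y'
  · subst h
    exact hi y hy ha hb hab
  · exact hR.no y hy y' hy' h a (hI y hy ha) b (hI y' hy' hb)

theorem Reps.pwd [Fintype V] {G : SimpleGraph V} {L : List (List V)} {R : Finset V}
    (hR : Reps G L R) {I : V → Finset V} (hI : ∀ y ∈ R, I y ⊆ comp G L y) :
    Set.PairwiseDisjoint (R : Set V) I := by
  intro y hy y' hy' h
  exact Finset.disjoint_of_subset_left (hI y hy)
    (Finset.disjoint_of_subset_right (hI y' hy') (hR.dis y hy y' hy' h))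

theorem Reps.sum [Fintype V] {G : SimpleGraph V} {L : List (List V)} {R : Finset V}
    (hR : Reps G L R) {I : V → Finset V} (hI : ∀ y ∈ R, I y ⊆ comp G L y) (f : V → ℕ) :
    ∑ v ∈ R.biUnion I, f v = ∑ y ∈ R, ∑ v ∈ I y, f v :=
  Finset.sum_biUnion (hR.pwd hI)

theorem Reps.cardI [Fintype V] {G : SimpleGraph V} {L : List (List V)} {R : Finset V}
    (hR : Reps G L R) {I : V → Finset V} (hI : ∀ y ∈ R, I y ⊆ comp G L y) :
    (R.biUnion I).card = ∑ y ∈ R, (I y).card :=
  Finset.card_biUnion (fun y hy y' hy' h => hR.pwd hI hy hy' h)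

/-- the degree of a vertex of a component: inside, and its attachments on the family -/
theorem deg_comp [Fintype V] {G : SimpleGraph V} [DecidableRel G.Adj] {L : List (List V)}
    {y v : V} (hy : y ∈ unc L) (hv : v ∈ comp G L y) :
    dU G Finset.univ v =
      dU G (comp G L y) v + ((att G L y).filter (fun w => G.Adj v w)).card := by
  rw [dU_comp hv]
  exact att_deg hy (mem_comp.1 hv).2

/-- the degree of any vertex: on the family, and in the components -/
theorem Reps.deg [Fintype V] {G : SimpleGraph V} [DecidableRel G.Adj] {L : List (List V)}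
    {R : Finset V} (hR : Reps G L R) (v : V) :
    dU G Finset.univ v = dU G L.flatten.toFinset v + ∑ y ∈ R, dU G (comp G L y) v := by
  have h1 : ∑ y ∈ R, dU G (comp G L y) v = dU G (unc L) v := by
    unfold dU
    rw [← hR.biUnion, Finset.filter_biUnion]
    rw [Finset.card_biUnion]
    intro y hy y' hy' h
    exact Finset.disjoint_of_subset_left (Finset.filter_subset _ _)
      (Finset.disjoint_of_subset_right (Finset.filter_subset _ _) (hR.dis y hy y' hy' h))
  rw [h1]
  unfold dU
  rw [← Finset.card_union_of_disjoint]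
  · congr 1
    ext w
    rw [Finset.mem_union, Finset.mem_filter, Finset.mem_filter, Finset.mem_filter, mem_unc,
      List.mem_toFinset]
    constructor
    · rintro ⟨-, h⟩
      by_cases hw : w ∈ L.flatten
      · exact Or.inl ⟨hw, h⟩
      · exact Or.inr ⟨hw, h⟩
    · rintro (⟨-, h⟩ | ⟨-, h⟩)
      · exact ⟨Finset.mem_univ _, h⟩
      · exact ⟨Finset.mem_univ _, h⟩
  · rw [Finset.disjoint_left]
    intro w hw hw'
    exact mem_unc.1 (Finset.mem_filter.1 hw').1 (List.mem_toFinset.1 (Finset.mem_filter.1 hw).1)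

/-- (G5) the final independent set: `p` on the cycle and the sets of the components -/
theorem Reps.final [Fintype V] {G : SimpleGraph V} [DecidableRel G.Adj] {L : List (List V)}
    {R W : Finset V} {k : ℕ} (hL : Fam G L) (hR : Reps G L R) {I : V → Finset V}
    (hI : ∀ y ∈ R, I y ⊆ comp G L y \ W) (hi : ∀ y ∈ R, G.IsIndepSet (I y : Set V)) {p : V}
    (hp : p ∈ L.flatten) (hpW : p ∉ W) (hpI : ∀ y ∈ R, ∀ v ∈ I y, ¬ G.Adj p v)
    (hk : k ≤ ∑ y ∈ R, (I y).card)
    (hs : dU G Finset.univ p + ∑ y ∈ R, ∑ v ∈ I y,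
        (dU G (comp G L y) v + ((att G L y).filter (fun w => G.Adj v w)).card) + 1 ≤
      L.flatten.length + ∑ y ∈ R, (comp G L y).card) :
    ∃ J : Finset V, J ⊆ Finset.univ \ W ∧ G.IsIndepSet (J : Set V) ∧ J.card = k + 1 ∧
      ∑ v ∈ J, dU G Finset.univ v + 1 ≤ (Finset.univ : Finset V).card := by
  have hI' : ∀ y ∈ R, I y ⊆ comp G L y := fun y hy => (hI y hy).trans Finset.sdiff_subset
  have hpn : p ∉ R.biUnion I := by
    intro h
    obtain ⟨y, hy, h⟩ := Finset.mem_biUnion.1 h
    exact mem_unc.1 (mem_comp.1 (hI' y hy h)).1 hp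
  refine drop_elems (I := insert p (R.biUnion I)) ?_ ?_ ?_ ?_
  · intro x hx
    rcases Finset.mem_insert.1 hx with rfl | hx
    · exact Finset.mem_sdiff.2 ⟨Finset.mem_univ _, hpW⟩
    · obtain ⟨y, hy, h⟩ := Finset.mem_biUnion.1 hx
      exact Finset.mem_sdiff.2 ⟨Finset.mem_univ _, (Finset.mem_sdiff.1 (hI y hy h)).2⟩
  · intro a ha b hb hab
    rw [Finset.mem_coe, Finset.mem_insert] at ha hb
    rcases ha with rfl | ha <;> rcases hb with rfl | hb
    · exact absurd rfl hab
    · obtain ⟨y, hy, h⟩ := Finset.mem_biUnion.1 hb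
      exact hpI y hy b h
    · obtain ⟨y, hy, h⟩ := Finset.mem_biUnion.1 ha
      exact fun h' => hpI y hy a h h'.symm
    · exact hR.indep hI' hi ha hb hab
  · rw [Finset.card_insert_of_notMem hpn, hR.cardI hI']
    omega
  · rw [Finset.sum_insert hpn, hR.sum hI', hR.card_univ hL]
    have : ∑ y ∈ R, ∑ v ∈ I y, dU G Finset.univ v = ∑ y ∈ R, ∑ v ∈ I y,
        (dU G (comp G L y) v + ((att G L y).filter (fun w => G.Adj v w)).card) := by
      refine Finset.sum_congr rfl fun y hy => Finset.sum_congr rfl fun v hv => ?_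
      exact deg_comp (hR.sub hy) (hI' y hy hv)
    rw [this]
    exact hs

/-- (G5') the final inequality: `Q y` bounds the surplus of the component, `E y` its edges to the
family, and the cycle has `1 + d(p) + Σ (E - slack)` vertices -/
theorem Reps.final' [Fintype V] {G : SimpleGraph V} [DecidableRel G.Adj] {L : List (List V)}
    {R W : Finset V} {k : ℕ} (hL : Fam G L) (hR : Reps G L R) {I : V → Finset V}
    (hI : ∀ y ∈ R, I y ⊆ comp G L y \ W) (hi : ∀ y ∈ R, G.IsIndepSet (I y : Set V)) {p : V}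
    (hp : p ∈ L.flatten) (hpW : p ∉ W) (hpI : ∀ y ∈ R, ∀ v ∈ I y, ¬ G.Adj p v)
    (hk : k ≤ ∑ y ∈ R, (I y).card) (E s : V → ℕ)
    (hE : ∀ y ∈ R, ∑ v ∈ I y, ((att G L y).filter (fun w => G.Adj v w)).card ≤ E y)
    (hq : ∀ y ∈ R, ∑ v ∈ I y, dU G (comp G L y) v + s y ≤ (comp G L y).card)
    (hs : dU G Finset.univ p + ∑ y ∈ R, E y + 1 ≤ L.flatten.length + ∑ y ∈ R, s y) :
    ∃ J : Finset V, J ⊆ Finset.univ \ W ∧ G.IsIndepSet (J : Set V) ∧ J.card = k + 1 ∧
      ∑ v ∈ J, dU G Finset.univ v + 1 ≤ (Finset.univ : Finset V).card := by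
  refine hR.final hL hI hi hp hpW hpI hk ?_
  have h1 : ∑ y ∈ R, ∑ v ∈ I y,
      (dU G (comp G L y) v + ((att G L y).filter (fun w => G.Adj v w)).card) + ∑ y ∈ R, s y ≤
      ∑ y ∈ R, E y + ∑ y ∈ R, (comp G L y).card := by
    rw [← Finset.sum_add_distrib, ← Finset.sum_add_distrib]
    refine Finset.sum_le_sum fun y hy => ?_
    rw [Finset.sum_add_distrib]
    have h2 := hE y hy
    have h3 := hq y hy
    omega
  omega

end Pool.Agent.H62P
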