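import Pool.Agent.H18C.BPlus
import Pool.Agent.H62P.Comps

/-! The package: class `Kb`, minimum covers, the conclusions of the induction. -/

namespace Pool.Agent.H62P

open List Pool.Agent.TF82 Pool.Agent.TFC Pool.Agent.TFB Pool.Agent.EG31 Pool.Agent.H18C

universe u

set_option linter.unusedSectionVars false
set_option linter.unusedVariables false

variable {V : Type u} [DecidableEq V]

/-- a path inside `H` from `a` to `b` with at least `n` vertices -/
def Pth (G : SimpleGraph V) (H : Finset V) (a b : V) (n : ℕ) : Prop :=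
  ∃ q : List V, Seg G q a b ∧ q.Nodup ∧ (∀ z ∈ q, z ∈ H) ∧ n ≤ q.length

/-- long paths from one member of each set of members -/
def P1 (G : SimpleGraph V) (H S : Finset V) (b : ℕ) (I : Finset V) : Prop :=
  ∀ M ⊆ I, M.Nonempty → ∃ v ∈ M, ∀ x ∈ H, x ≠ v → Pth G H v x (b + 1 + M.card + min 1 S.card)

/-- long paths between members of two sets of members -/
def P2 (G : SimpleGraph V) (H S : Finset V) (b : ℕ) (I : Finset V) : Prop :=
  ∀ M ⊆ I, ∀ M' ⊆ I, M.Nonempty → M'.Nonempty → ¬ (M = M' ∧ M.card = 1) →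
    ∃ v ∈ M, ∃ v' ∈ M', v ≠ v' ∧
      Pth G H v v' (2 * b + M.card + M'.card + 2 * min 1 S.card)

/-- the class of the induction: `S` optional, surplus `b` at good vertices -/
structure Kb (G : SimpleGraph V) [DecidableRel G.Adj] (H S : Finset V) (b : ℕ) : Prop where
  sub : S ⊆ H
  con : Conn1 G H
  ne : (H \ S).Nonempty
  cw : CW G H S
  sur : ∀ I : Finset V, I ⊆ H \ S → G.IsIndepSet (I : Set V) → ∀ v ∈ I, Good G H S v →
    I.card + S.card + b + 1 ≤ dU G H v

/-- the minimum number of cycles -/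
def MinCov (G : SimpleGraph V) (H S : Finset V) (f : ℕ) : Prop :=
  CovW G H S f ∧ ∀ k, k < f → ¬ CovW G H S k

/-- the package -/
structure Pkg (G : SimpleGraph V) [DecidableRel G.Adj] (H S : Finset V) (b f : ℕ)
    (I : Finset V) : Prop where
  good : ∀ v ∈ I, Good G H S v
  ind : G.IsIndepSet (I : Set V)
  card : I.card = f
  near : ∀ N ⊆ H, (∀ x ∈ N, ∀ y ∈ N, Near G H S x y) → ∑ v ∈ I, dU G H v + N.card ≤ H.card
  p1 : P1 G H S b I
  p2 : P2 G H S b I
  co : ∃ D ⊆ H, 2 ≤ D.card ∧ ∀ x ∈ D, ∀ x' ∈ D, x ≠ x' →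
    Pth G D x x' (f + b + 1 + min 1 S.card)

/-- the package for all proper smaller sets -/
def IHP (G : SimpleGraph V) [DecidableRel G.Adj] (n : ℕ) : Prop :=
  ∀ (H' S' : Finset V) (b' f' : ℕ), H'.card < n → Kb G H' S' b' → MinCov G H' S' f' →
    ∃ I, Pkg G H' S' b' f' I

/-- cut vertex step: every component of `H - z` has a vertex outside `S` -/
def CutStepP : Prop :=
  ∀ (V : Type u) [DecidableEq V] (G : SimpleGraph V) [DecidableRel G.Adj] (H S : Finset V)
    (b f : ℕ) (z : V), Kb G H S b → MinCov G H S f → z ∈ H → ¬ Conn1 G (H.erase z) →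
    (∀ C, Part G H z C → (C \ S).Nonempty) → IHP G H.card → ∃ I, Pkg G H S b f I

/-- side step: a component `C` of `H - z` lies in `S` -/
def SideStepP : Prop :=
  ∀ (V : Type u) [DecidableEq V] (G : SimpleGraph V) [DecidableRel G.Adj] (H S : Finset V)
    (b f : ℕ) (z : V) (C : Finset V), Kb G H S b → MinCov G H S f → z ∈ H →
    ¬ Conn1 G (H.erase z) → Part G H z C → C ⊆ S → IHP G H.card → ∃ I, Pkg G H S b f I

/-- the 2-connected step -/
def MainStepP : Prop :=
  ∀ (V : Type u) [Fintype V] [DecidableEq V] (G : SimpleGraph V) [DecidableRel G.Adj]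
    (S : Finset V) (b f : ℕ), Kb G Finset.univ S b → MinCov G Finset.univ S f →
    Conn2 G Finset.univ → IHP G (Fintype.card V) → ∃ I, Pkg G Finset.univ S b f I

/-- transfer between `H` and the subtype -/
def TransferP : Prop :=
  ∀ (V : Type u) [DecidableEq V] (G : SimpleGraph V) [DecidableRel G.Adj] (H S : Finset V)
    (b f : ℕ), Kb G H S b → MinCov G H S f → Conn2 G H →
    Kb (G.comap (Subtype.val : {x // x ∈ H} → V)) Finset.univ (subW H S) b ∧
    MinCov (G.comap (Subtype.val : {x // x ∈ H} → V)) Finset.univ (subW H S) f ∧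
    Conn2 (G.comap (Subtype.val : {x // x ∈ H} → V)) Finset.univ ∧
    ∀ I' : Finset {x // x ∈ H},
      Pkg (G.comap (Subtype.val : {x // x ∈ H} → V)) Finset.univ (subW H S) b f I' →
      Pkg G H S b f (I'.map ⟨Subtype.val, Subtype.val_injective⟩)

theorem Kb.cov {G : SimpleGraph V} [DecidableRel G.Adj] {H S : Finset V} {b : ℕ}
    (h : Kb G H S b) : ∃ f, MinCov G H S f := by
  obtain ⟨m, h1, h2⟩ := exists_min_cov h.sub h.cw
  exact ⟨m, h1, h2⟩

theorem Kb.pos {G : SimpleGraph V} [DecidableRel G.Adj] {H S : Finset V} {b f : ℕ}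
    (h : Kb G H S b) (hf : MinCov G H S f) : 1 ≤ f := by
  by_contra hcon
  have : f = 0 := by omega
  subst this
  exact cov_pos h.ne hf.1

theorem Kb.zero {G : SimpleGraph V} [DecidableRel G.Adj] {H S : Finset V} (hS : S ⊆ H)
    (hc : Conn1 G H) (hne : (H \ S).Nonempty) (hC : CW G H S) : Kb G H S 0 :=
  ⟨hS, hc, hne, hC, fun I hI hi v hv _ => by
    have := hC I hI hi v hv
    omega⟩

theorem MinCov.le {G : SimpleGraph V} {H S : Finset V} {f k : ℕ} (h : MinCov G H S f)
    (hk : CovW G H S k) : f ≤ k := by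
  by_contra hcon
  exact h.2 k (by omega) hk

theorem Pkg.sum {G : SimpleGraph V} [DecidableRel G.Adj] {H S I : Finset V} {b f : ℕ}
    (h : Pkg G H S b f I) {x : V} (hx : x ∈ H) : ∑ v ∈ I, dU G H v + 1 ≤ H.card := by
  have := h.near {x} (by simpa using hx) (by
    intro a ha c hc
    rw [Finset.mem_singleton] at ha hc
    rw [ha, hc]
    exact near_refl _)
  simpa using this

/-- the package for all sets -/
theorem Pkg_all (hcut : CutStepP.{u}) (hside : SideStepP.{u}) (hmain : MainStepP.{u})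
    (htr : TransferP.{u}) : ∀ (n : ℕ) (V : Type u) [DecidableEq V] (G : SimpleGraph V)
    [DecidableRel G.Adj], IHP G n := by
  intro n
  induction n with
  | zero => intro V _ G _ H S b f h; exact absurd h (Nat.not_lt_zero _)
  | succ n ih =>
    intro V _ G _ H S b f hcard hK hf
    have hIH : IHP G H.card := fun H' S' b' f' h1 h2 h3 => ih V G H' S' b' f' (by omega) h2 h3
    by_cases h2 : Conn2 G H
    · obtain ⟨t1, t2, t3, t4⟩ := htr V G H S b f hK hf h2
      obtain ⟨I, hI⟩ := hmain {x // x ∈ H} (G.comap Subtype.val) (subW H S) b f t1 t2 t3 (by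
        intro H' S' b' f' h1 h2 h3
        rw [Fintype.card_coe] at h1
        exact ih _ _ H' S' b' f' (by omega) h2 h3)
      exact ⟨_, t4 I hI⟩
    · unfold Conn2 at h2
      push Not at h2
      obtain ⟨z, hz, hz2⟩ := h2
      by_cases hs : ∃ C, Part G H z C ∧ C ⊆ S
      · obtain ⟨C, hC, hCS⟩ := hs
        exact hside V G H S b f z C hK hf hz hz2 hC hCS hIH
      · push Not at hs
        refine hcut V G H S b f z hK hf hz hz2 ?_ hIH
        intro C hC
        obtain ⟨x, hx, hxS⟩ := Finset.not_subset.1 (hs C hC)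
        exact ⟨x, Finset.mem_sdiff.2 ⟨hx, hxS⟩⟩

/-- the package gives the main step of the frame -/
theorem mainStep_of_pkg (hcut : CutStepP.{u}) (hside : SideStepP.{u}) (hmain : MainStepP.{u})
    (htr : TransferP.{u}) : MainStep.{u} := by
  intro V _ _ G _ W hC hne h1 h2 _
  have hK : Kb G Finset.univ W 0 := Kb.zero (Finset.subset_univ _) h1 hne hC
  obtain ⟨f, hf⟩ := hK.cov
  obtain ⟨I, hI⟩ := Pkg_all hcut hside hmain htr ((Finset.univ : Finset V).card + 1) V G
    Finset.univ W 0 f (Nat.lt_succ_self _) hK hf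
  obtain ⟨x, hx⟩ := hne
  intro k hk
  have hfk : k + 1 ≤ f := by
    by_contra hcon
    exact hk (hf.1.mono (by omega))
  exact drop_elems (fun v hv => Finset.mem_sdiff.2 ⟨(hI.good v hv).mem, (hI.good v hv).nS⟩)
    hI.ind (by rw [hI.card]; exact hfk) (hI.sum (Finset.mem_univ x))

/-- Q1 for all `k` and all orders from the steps of the package -/
theorem q1_of_pkg (hcut : CutStepP.{u}) (hside : SideStepP.{u}) (hmain : MainStepP.{u})
    (htr : TransferP.{u}) {V : Type u} [Fintype V]
    [DecidableEq V] (G : SimpleGraph V) [DecidableRel G.Adj] (k : ℕ)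
    (hC : ∀ I : Finset V, G.IsIndepSet (I : Set V) → ∀ v ∈ I,
      I.card + 1 ≤ dU G Finset.univ v)
    (hσ : ∀ I : Finset V, G.IsIndepSet (I : Set V) → I.card = k + 1 →
      Fintype.card V ≤ ∑ v ∈ I, dU G Finset.univ v) : Cov G k :=
  cov_all_of_main (mainStep_of_pkg hcut hside hmain htr) G k hC hσ

end Pool.Agent.H62P
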