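import Pool.Agent.H62P.Frame
import Pool.Agent.TFB.Att

/-! The class with optional vertices: existence of covers, dropping elements, disjoint unions,
transfer to induced subgraphs, components of the complement of a longest cycle with hubs. -/

namespace Pool.Agent.H62P

open List Pool.Agent.TF82 Pool.Agent.TFC Pool.Agent.TFB

universe u

set_option linter.unusedSectionVars false
set_option linter.unusedVariables false

variable {V : Type u} [DecidableEq V]

theorem dU_le_card {G : SimpleGraph V} [DecidableRel G.Adj] {U : Finset V} {v : V} (hv : v ∈ U) :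
    dU G U v + 1 ≤ U.card := by
  unfold dU
  have : U.filter (fun w => G.Adj v w) ⊆ U.erase v := by
    intro w hw
    rw [Finset.mem_filter] at hw
    exact Finset.mem_erase.2 ⟨fun h => G.loopless.irrefl _ (h ▸ hw.2), hw.1⟩
  have h1 := Finset.card_le_card this
  rw [Finset.card_erase_of_mem hv] at h1
  have : 1 ≤ U.card := Finset.card_pos.2 ⟨v, hv⟩
  omega

theorem dU_mono {G : SimpleGraph V} [DecidableRel G.Adj] {U U' : Finset V} (h : U ⊆ U') (v : V) :
    dU G U v ≤ dU G U' v :=
  Finset.card_le_card (Finset.filter_subset_filter _ h)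

theorem dU_union_le {G : SimpleGraph V} [DecidableRel G.Adj] (A B : Finset V) (v : V) :
    dU G (A ∪ B) v ≤ dU G A v + dU G B v := by
  unfold dU
  rw [Finset.filter_union]
  exact Finset.card_union_le _ _

theorem dU_le {G : SimpleGraph V} [DecidableRel G.Adj] (A : Finset V) (v : V) :
    dU G A v ≤ A.card := Finset.card_filter_le _ _

/-- dropping elements -/
theorem drop_elems {G : SimpleGraph V} [DecidableRel G.Adj] {U W I : Finset V} {k : ℕ}
    (hI : I ⊆ U \ W) (hind : G.IsIndepSet (I : Set V)) (hk : k + 1 ≤ I.card)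
    (hs : ∑ v ∈ I, dU G U v + 1 ≤ U.card) :
    ∃ I : Finset V, I ⊆ U \ W ∧ G.IsIndepSet (I : Set V) ∧ I.card = k + 1 ∧
      ∑ v ∈ I, dU G U v + 1 ≤ U.card := by
  obtain ⟨J, hJ, hc⟩ := Finset.exists_subset_card_eq hk
  refine ⟨J, hJ.trans hI, fun a ha b hb => hind (hJ ha) (hJ hb), hc, ?_⟩
  have := Finset.sum_le_sum_of_subset (f := fun v => dU G U v) hJ
  omega

/-- SAVING: one superfluous element pays `|I| + 1 + |W|` -/
theorem saving {G : SimpleGraph V} [DecidableRel G.Adj] {U W I : Finset V} {k : ℕ}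
    (hC : CW G U W) (hI : I ⊆ U \ W) (hind : G.IsIndepSet (I : Set V)) (hk : k + 2 ≤ I.card)
    (hs : ∑ v ∈ I, dU G U v ≤ U.card + I.card + W.card) :
    ∃ I : Finset V, I ⊆ U \ W ∧ G.IsIndepSet (I : Set V) ∧ I.card = k + 1 ∧
      ∑ v ∈ I, dU G U v + 1 ≤ U.card := by
  obtain ⟨v, hv⟩ : I.Nonempty := Finset.card_pos.1 (by omega)
  have h1 := hC I hI hind v hv
  have h2 := Finset.add_sum_erase I (fun v => dU G U v) hv
  have h3 := Finset.card_erase_of_mem hv
  refine drop_elems (I := I.erase v) ((Finset.erase_subset _ _).trans hI)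
    (fun a ha b hb => hind (Finset.erase_subset _ _ ha) (Finset.erase_subset _ _ hb))
    (by omega) (by omega)

/-- the vertices that must be covered satisfy (C) among themselves -/
theorem CW.cloc {G : SimpleGraph V} [DecidableRel G.Adj] {U W : Finset V} (hW : W ⊆ U)
    (hC : CW G U W) : CLoc G (U \ W) := by
  intro I hI hind _ v hv
  have h1 := hC I hI hind v hv
  have h2 : dU G U v ≤ dU G (U \ W) v + W.card := by
    have h3 := dU_union_le (G := G) (U \ W) W v
    rw [Finset.sdiff_union_of_subset hW] at h3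
    have h4 := dU_le (G := G) W v
    omega
  omega

theorem exists_cov {G : SimpleGraph V} [DecidableRel G.Adj] {U W : Finset V} (hW : W ⊆ U)
    (hC : CW G U W) : CovW G U W U.card := by
  obtain ⟨L, h1, h2, h3, h4⟩ := cover_of_indep U.card (U \ W) (hC.cloc hW)
    (fun I hI _ => Finset.card_le_card (hI.trans Finset.sdiff_subset))
  exact ⟨L, h1, ⟨h2, h3⟩, fun x hx => (Finset.mem_sdiff.1 ((h4 x).1 hx)).1,
    fun x hx => (h4 x).2 hx⟩

/-- the least number of cycles -/
theorem exists_min_cov {G : SimpleGraph V} [DecidableRel G.Adj] {U W : Finset V} (hW : W ⊆ U)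
    (hC : CW G U W) : ∃ m, CovW G U W m ∧ ∀ k, k < m → ¬ CovW G U W k := by
  classical
  have h : ∃ m, CovW G U W m := ⟨_, exists_cov hW hC⟩
  exact ⟨Nat.find h, Nat.find_spec h, fun k hk => Nat.find_min h hk⟩

theorem cov_pos {G : SimpleGraph V} {U W : Finset V} (hne : (U \ W).Nonempty) :
    ¬ CovW G U W 0 := by
  rintro ⟨L, h1, h2, h3, h4⟩
  obtain ⟨x, hx⟩ := hne
  have : L = [] := by
    rcases L with _ | ⟨a, L⟩
    · rfl
    · simp at h1
  subst this
  have := h4 x hx
  simp at this

/-- an optimal cover and an independent set of the same size -/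
theorem PW.min {G : SimpleGraph V} [DecidableRel G.Adj] {U W : Finset V} (hW : W ⊆ U)
    (hC : CW G U W) (hP : PW G U W) (hne : (U \ W).Nonempty) :
    ∃ m, CovW G U W m ∧ (∀ k, k < m → ¬ CovW G U W k) ∧ 1 ≤ m ∧ ∃ I : Finset V, I ⊆ U \ W ∧
      G.IsIndepSet (I : Set V) ∧ I.card = m ∧ ∑ v ∈ I, dU G U v + 1 ≤ U.card := by
  obtain ⟨m, h1, h2⟩ := exists_min_cov hW hC
  have hm : 1 ≤ m := by
    by_contra h
    have : m = 0 := by omega
    subst this
    exact cov_pos hne h1
  obtain ⟨I, h3, h4, h5, h6⟩ := hP (m - 1) (h2 _ (by omega))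
  exact ⟨m, h1, h2, hm, I, h3, h4, by omega, h6⟩

/-- union of covers of disjoint pieces -/
theorem CovW.union {G : SimpleGraph V} {A B WA WB : Finset V} {k l : ℕ}
    (hAB : Disjoint A B) (hA : CovW G A WA k) (hB : CovW G B WB l) :
    CovW G (A ∪ B) (WA ∪ WB) (k + l) := by
  obtain ⟨L, h1, h2, h3, h4⟩ := hA
  obtain ⟨M, h5, h6, h7, h8⟩ := hB
  refine ⟨L ++ M, by simp; omega, ⟨?_, ?_⟩, ?_, ?_⟩
  · intro c hc
    rcases List.mem_append.1 hc with hc | hc
    · exact h2.cyc c hc
    · exact h6.cyc c hc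
  · rw [List.flatten_append, List.nodup_append]
    refine ⟨h2.nod, h6.nod, ?_⟩
    rintro x hx y hy rfl
    exact Finset.disjoint_left.1 hAB (h3 x hx) (h7 x hy)
  · intro x hx
    rw [List.flatten_append, List.mem_append] at hx
    rcases hx with hx | hx
    · exact Finset.mem_union_left _ (h3 x hx)
    · exact Finset.mem_union_right _ (h7 x hx)
  · intro x hx
    rw [Finset.mem_sdiff, Finset.mem_union, Finset.mem_union] at hx
    rw [List.flatten_append, List.mem_append]
    push Not at hx
    rcases hx.1 with h | h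
    · exact Or.inl (h4 x (Finset.mem_sdiff.2 ⟨h, hx.2.1⟩))
    · exact Or.inr (h8 x (Finset.mem_sdiff.2 ⟨h, hx.2.2⟩))

/-- more optional vertices, more room -/
theorem CovW.weaken {G : SimpleGraph V} {U U' W W' : Finset V} {k : ℕ} (hU : U ⊆ U')
    (hW : U' \ W' ⊆ U \ W) (h : CovW G U W k) : CovW G U' W' k := by
  obtain ⟨L, h1, h2, h3, h4⟩ := h
  exact ⟨L, h1, h2, fun x hx => hU (h3 x hx), fun x hx => h4 x (hW hx)⟩

/-- no neighbours in `B` -/
theorem dU_union_of_no {G : SimpleGraph V} [DecidableRel G.Adj] {A B : Finset V} {v : V}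
    (h : ∀ b ∈ B, ¬ G.Adj v b) : dU G (A ∪ B) v = dU G A v := by
  unfold dU
  congr 1
  ext w
  rw [Finset.mem_filter, Finset.mem_filter, Finset.mem_union]
  constructor
  · rintro ⟨h1 | h1, h2⟩
    · exact ⟨h1, h2⟩
    · exact absurd h2 (h w h1)
  · rintro ⟨h1, h2⟩
    exact ⟨Or.inl h1, h2⟩

/-- DISCONNECTED STEP. -/
theorem PW_disj {G : SimpleGraph V} [DecidableRel G.Adj] {U W A B : Finset V} (hW : W ⊆ U)
    (hC : CW G U W) (hU : A ∪ B = U) (hAB : Disjoint A B)
    (hno : ∀ a ∈ A, ∀ b ∈ B, ¬ G.Adj a b) (hPA : PW G A (W ∩ A)) (hPB : PW G B (W ∩ B)) :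
    PW G U W := by
  have hdA : ∀ v ∈ A, dU G U v = dU G A v := by
    intro v hv
    rw [← hU]
    exact dU_union_of_no (fun b hb => hno v hv b hb)
  have hdB : ∀ v ∈ B, dU G U v = dU G B v := by
    intro v hv
    rw [← hU, Finset.union_comm]
    exact dU_union_of_no (fun a ha h => hno a ha v hv h.symm)
  have hAU : A ⊆ U := hU ▸ Finset.subset_union_left
  have hBU : B ⊆ U := hU ▸ Finset.subset_union_right
  have hCA : CW G A (W ∩ A) := by
    intro I hI hind v hv
    have h0 : I ⊆ U \ W := by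
      intro x hx
      have := Finset.mem_sdiff.1 (hI hx)
      exact Finset.mem_sdiff.2 ⟨hAU this.1, fun h => this.2 (Finset.mem_inter.2 ⟨h, this.1⟩)⟩
    have h1 := hC I h0 hind v hv
    rw [hdA v (Finset.mem_sdiff.1 (hI hv)).1] at h1
    have h2 : (W ∩ A).card ≤ W.card := Finset.card_le_card Finset.inter_subset_left
    omega
  have hCB : CW G B (W ∩ B) := by
    intro I hI hind v hv
    have h0 : I ⊆ U \ W := by
      intro x hx
      have := Finset.mem_sdiff.1 (hI hx)
      exact Finset.mem_sdiff.2 ⟨hBU this.1, fun h => this.2 (Finset.mem_inter.2 ⟨h, this.1⟩)⟩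
    have h1 := hC I h0 hind v hv
    rw [hdB v (Finset.mem_sdiff.1 (hI hv)).1] at h1
    have h2 : (W ∩ B).card ≤ W.card := Finset.card_le_card Finset.inter_subset_left
    omega
  intro k hk
  obtain ⟨a, ha1, ha2⟩ := exists_min_cov Finset.inter_subset_right hCA
  obtain ⟨b, hb1, hb2⟩ := exists_min_cov Finset.inter_subset_right hCB
  have hkab : k < a + b := by
    by_contra h
    push Not at h
    apply hk
    refine ((CovW.union hAB ha1 hb1).mono h).weaken (by rw [hU]) ?_
    rw [hU]
    intro x hx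
    have := Finset.mem_sdiff.1 hx
    refine Finset.mem_sdiff.2 ⟨this.1, fun h => this.2 ?_⟩
    rcases Finset.mem_union.1 h with h | h
    · exact (Finset.mem_inter.1 h).1
    · exact (Finset.mem_inter.1 h).1
  have getI : ∀ (X : Finset V) (m : ℕ), PW G X (W ∩ X) → (∀ k, k < m → ¬ CovW G X (W ∩ X) k) →
      ∃ I : Finset V, I ⊆ X \ (W ∩ X) ∧ G.IsIndepSet (I : Set V) ∧ I.card = m ∧
        (m ≠ 0 → ∑ v ∈ I, dU G X v + 1 ≤ X.card) ∧ ∑ v ∈ I, dU G X v ≤ X.card := by
    intro X m hP hm
    rcases Nat.eq_zero_or_pos m with rfl | hpos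
    · exact ⟨∅, by simp, by simp [SimpleGraph.IsIndepSet], rfl, by simp, by simp⟩
    · obtain ⟨I, h3, h4, h5, h6⟩ := hP (m - 1) (hm _ (by omega))
      exact ⟨I, h3, h4, by omega, fun _ => h6, by omega⟩
  obtain ⟨I, hI1, hI2, hI3, hI4, hI5⟩ := getI A a hPA ha2
  obtain ⟨J, hJ1, hJ2, hJ3, hJ4, hJ5⟩ := getI B b hPB hb2
  have hIA : I ⊆ A := hI1.trans Finset.sdiff_subset
  have hJB : J ⊆ B := hJ1.trans Finset.sdiff_subset
  have hIJ : Disjoint I J := Finset.disjoint_of_subset_left hIA (Finset.disjoint_of_subset_right hJB hAB)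
  refine drop_elems (I := I ∪ J) ?_ ?_ ?_ ?_
  · intro x hx
    rcases Finset.mem_union.1 hx with h | h
    · have := Finset.mem_sdiff.1 (hI1 h)
      exact Finset.mem_sdiff.2 ⟨hAU this.1, fun h => this.2 (Finset.mem_inter.2 ⟨h, this.1⟩)⟩
    · have := Finset.mem_sdiff.1 (hJ1 h)
      exact Finset.mem_sdiff.2 ⟨hBU this.1, fun h => this.2 (Finset.mem_inter.2 ⟨h, this.1⟩)⟩
  · intro x hx y hy hxy
    rw [Finset.mem_coe, Finset.mem_union] at hx hy
    rcases hx with hx | hx <;> rcases hy with hy | hy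
    · exact hI2 hx hy hxy
    · exact hno x (hIA hx) y (hJB hy)
    · intro h; exact hno y (hIA hy) x (hJB hx) h.symm
    · exact hJ2 hx hy hxy
  · rw [Finset.card_union_of_disjoint hIJ]; omega
  · have hs1 : ∑ v ∈ I, dU G U v = ∑ v ∈ I, dU G A v :=
      Finset.sum_congr rfl (fun v hv => hdA v (hIA hv))
    have hs2 : ∑ v ∈ J, dU G U v = ∑ v ∈ J, dU G B v :=
      Finset.sum_congr rfl (fun v hv => hdB v (hJB hv))
    rw [Finset.sum_union hIJ, hs1, hs2]
    have hc : U.card = A.card + B.card := by rw [← hU, Finset.card_union_of_disjoint hAB]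
    by_cases h0 : a = 0
    · have h1 := hJ4 (by omega)
      omega
    · have h1 := hI4 h0
      omega

/-! ### Components of the complement of a family of maximum coverage -/

/-- (AM) with optional vertices. -/
theorem att_main_W [Fintype V] {G : SimpleGraph V} [DecidableRel G.Adj] {W : Finset V}
    (hC : CW G Finset.univ W) {j : ℕ} {L : List (List V)} (hM : IsMax G j L) {y : V}
    (hy : y ∈ unc L) (J : Finset V) (hJW : Disjoint J W)
    (hJ : G.IsIndepSet (J : Set V)) (hJr : ∀ x ∈ J, Reach G (unc L) y x) {v : V} (hv : v ∈ J) :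
    J.card + 1 + (W ∩ unc L).card + ((att G L y).filter (fun w => ¬ G.Adj v w)).card ≤
      dU G (unc L) v := by
  have hcov : ∀ w ∈ att G L y, w ∈ L.flatten := fun w hw => (mem_att.1 hw).1
  have hcr : ∀ w ∈ att G L y, ∀ x ∈ J, ¬ G.Adj (prv L w) x := by
    intro w hw x hx hadj
    exact att_noins hM hy hw (mem_att.2 ⟨prv_mem hM.fam (hcov w hw), x, hJr x hx, hadj⟩)
  set P : Finset V := (att G L y).image (prv L) with hP
  have hPL : ∀ p ∈ P, p ∈ L.flatten := by
    intro p hp
    obtain ⟨w, hw, rfl⟩ := Finset.mem_image.1 hp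
    exact prv_mem hM.fam (hcov w hw)
  have hdis : Disjoint J (P \ W) := by
    rw [Finset.disjoint_left]
    intro x hx hx'
    exact mem_unc.1 (reach_unc hy (hJr _ hx)) (hPL x (Finset.mem_sdiff.1 hx').1)
  have hcP : P.card = (att G L y).card := by
    refine Finset.card_image_of_injOn ?_
    intro a ha b hb hab
    exact prv_inj hM.fam (hcov a ha) (hcov b hb) hab
  have key := hC (J ∪ (P \ W)) (by
      intro x hx
      rw [Finset.mem_sdiff]
      refine ⟨Finset.mem_univ _, ?_⟩
      rcases Finset.mem_union.1 hx with h | h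
      · exact Finset.disjoint_left.1 hJW h
      · exact (Finset.mem_sdiff.1 h).2) (by
      intro a ha b hb hab
      rw [Finset.mem_coe, Finset.mem_union] at ha hb
      rcases ha with ha | ha <;> rcases hb with hb | hb
      · exact hJ ha hb hab
      · obtain ⟨w, hw, rfl⟩ := Finset.mem_image.1 (Finset.mem_sdiff.1 hb).1
        intro h; exact hcr w hw a ha h.symm
      · obtain ⟨w, hw, rfl⟩ := Finset.mem_image.1 (Finset.mem_sdiff.1 ha).1
        exact hcr w hw b hb
      · obtain ⟨w, hw, rfl⟩ := Finset.mem_image.1 (Finset.mem_sdiff.1 ha).1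
        obtain ⟨w', hw', rfl⟩ := Finset.mem_image.1 (Finset.mem_sdiff.1 hb).1
        exact att_indep hM hy hw hw') v (Finset.mem_union_left _ hv)
  rw [Finset.card_union_of_disjoint hdis] at key
  have h1 : P.card ≤ (P \ W).card + (W ∩ P).card := by
    have : P ⊆ (P \ W) ∪ (W ∩ P) := by
      intro p hp
      by_cases h : p ∈ W
      · exact Finset.mem_union_right _ (Finset.mem_inter.2 ⟨h, hp⟩)
      · exact Finset.mem_union_left _ (Finset.mem_sdiff.2 ⟨hp, h⟩)
    exact (Finset.card_le_card this).trans (Finset.card_union_le _ _)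
  have h2 : (W ∩ P).card + (W ∩ unc L).card ≤ W.card := by
    rw [← Finset.card_union_of_disjoint]
    · exact Finset.card_le_card (Finset.union_subset Finset.inter_subset_left
        Finset.inter_subset_left)
    · rw [Finset.disjoint_left]
      intro x hx hx'
      exact mem_unc.1 (Finset.mem_inter.1 hx').2 (hPL x (Finset.mem_inter.1 hx).2)
  have h3 := att_deg (G := G) hy (hJr v hv)
  have h4 := Finset.card_filter_add_card_filter_not (s := att G L y) (fun w => G.Adj v w)
  omega

/-- Every component together with any set of its hubs (made optional) stays in the class. -/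
theorem CW_comp_hubs [Fintype V] {G : SimpleGraph V} [DecidableRel G.Adj] {W : Finset V}
    (hC : CW G Finset.univ W) {j : ℕ} {L : List (List V)} (hM : IsMax G j L) {y : V}
    (hy : y ∈ unc L) {R : Finset V} (hR : R ⊆ att G L y) :
    CW G (comp G L y ∪ R) ((W ∩ comp G L y) ∪ R) := by
  have hRc : ∀ r ∈ R, r ∉ comp G L y := by
    intro r hr h
    exact mem_unc.1 (mem_comp.1 h).1 (mem_att.1 (hR hr)).1
  intro I hI hind v hv
  have hIc : ∀ x ∈ I, x ∈ comp G L y ∧ x ∉ W := by
    intro x hx
    have h1 := Finset.mem_sdiff.1 (hI hx)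
    rw [Finset.mem_union, Finset.mem_union, Finset.mem_inter] at h1
    push Not at h1
    rcases h1.1 with h | h
    · exact ⟨h, fun hw => h1.2.1 hw h⟩
    · exact absurd h h1.2.2
  have h1 := att_main_W hC hM hy I
    (Finset.disjoint_left.2 (fun x hx => (hIc x hx).2)) hind
    (fun x hx => (mem_comp.1 (hIc x hx).1).2) hv
  rw [← dU_comp (hIc v hv).1] at h1
  have h2 : ((W ∩ comp G L y) ∪ R).card ≤ (W ∩ unc L).card + R.card := by
    refine (Finset.card_union_le _ _).trans (Nat.add_le_add_right (Finset.card_le_card ?_) _)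
    intro x hx
    have := Finset.mem_inter.1 hx
    exact Finset.mem_inter.2 ⟨this.1, (mem_comp.1 this.2).1⟩
  have h3 : dU G (comp G L y ∪ R) v = dU G (comp G L y) v + (R.filter (fun w => G.Adj v w)).card := by
    unfold dU
    rw [Finset.filter_union, Finset.card_union_of_disjoint]
    rw [Finset.disjoint_left]
    intro x hx hx'
    exact hRc x (Finset.mem_filter.1 hx').1 (Finset.mem_filter.1 hx).1
  have h4 := Finset.card_filter_add_card_filter_not (s := R) (fun w => G.Adj v w)
  have h5 : (R.filter (fun w => ¬ G.Adj v w)).card ≤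
      ((att G L y).filter (fun w => ¬ G.Adj v w)).card :=
    Finset.card_le_card (Finset.filter_subset_filter _ hR)
  omega

end Pool.Agent.H62P
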