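import Pool.Agent.H62P.SideP
import Pool.Agent.H35P.Cyc

/-! The last part of the 2-connected step: from the data of the components to the package. -/

namespace Pool.Agent.H62P

open List Pool.Agent.TF82 Pool.Agent.TFC Pool.Agent.TFB Pool.Agent.EG31 Pool.Agent.H18C

universe u

set_option linter.unusedSectionVars false
set_option linter.unusedVariables false

variable {V : Type u} [DecidableEq V]

theorem main_fin [Fintype V] {G : SimpleGraph V} [DecidableRel G.Adj] {W : Finset V} {b f : ℕ}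
    (hK : Kb G Finset.univ W b) (h2 : Conn2 G Finset.univ) {c : List V}
    (hM : IsMax G 1 [c]) {R : Finset V} (hR : Reps G [c] R) {S' I : V → Finset V} {bb : V → ℕ}
    (hIZ : ∀ y ∈ R, I y ⊆ comp G [c] y \ W)
    (hi : ∀ y ∈ R, G.IsIndepSet (I y : Set V))
    (hclean : ∀ y ∈ R, ∀ v ∈ I y, ∀ w ∈ c, G.Adj v w → ∃ x ∈ comp G [c] y, x ≠ v ∧ G.Adj x w)
    (hWS : ∀ y ∈ R, W ∩ comp G [c] y ⊆ S' y)
    (hsur : ∀ y ∈ R, (I y).Nonempty →
      b + ∑ j ∈ R.erase y, (I j).card + (W \ comp G [c] y).card ≤ bb y)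
    (hp1 : ∀ y ∈ R, (I y).Nonempty → P1 G (comp G [c] y) (S' y) (bb y) (I y))
    (hp2 : ∀ y ∈ R, (I y).Nonempty → P2 G (comp G [c] y) (S' y) (bb y) (I y))
    (hlen : 2 * (f + b) + 2 ≤ c.length)
    (hgam : ∀ x x', x ≠ x' → Pth G Finset.univ x x' (f + b + 2))
    {p : V} (hp : p ∈ c) (hpW : p ∉ W) (hpI : ∀ y ∈ R, ∀ v ∈ I y, ¬ G.Adj p v)
    (hk : f ≤ 1 + ∑ y ∈ R, (I y).card)
    (hs : dU G Finset.univ p + ∑ y ∈ R, ∑ v ∈ I y,
        (dU G (comp G [c] y) v + ((att G [c] y).filter (fun w => G.Adj v w)).card) + 1 ≤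
      c.length + ∑ y ∈ R, (comp G [c] y).card) :
    ∃ I₀, Pkg G Finset.univ W b f I₀ := by
  have hL : Fam G [c] := hM.fam
  have hc : CycL G c := hL.cyc c (by simp)
  have hpL : p ∈ ([c] : List (List V)).flatten := by simpa using hp
  have hI' : ∀ y ∈ R, I y ⊆ comp G [c] y := fun y hy => (hIZ y hy).trans Finset.sdiff_subset
  have hpn : p ∉ R.biUnion I := by
    intro h
    obtain ⟨y, hy, h⟩ := Finset.mem_biUnion.1 h
    exact mem_unc.1 (mem_comp.1 (hI' y hy h)).1 hpL
  have hcard : (insert p (R.biUnion I)).card = 1 + ∑ y ∈ R, (I y).card := by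
    rw [Finset.card_insert_of_notMem hpn, hR.cardI hI']
    omega
  obtain ⟨I₀, hI₀, hI₀c⟩ := Finset.exists_subset_card_eq (hcard ▸ hk :
    f ≤ (insert p (R.biUnion I)).card)
  have hout : ∀ v ∈ insert p (R.biUnion I), v ∉ W := by
    intro v hv
    rcases Finset.mem_insert.1 hv with rfl | hv
    · exact hpW
    · obtain ⟨y, hy, h⟩ := Finset.mem_biUnion.1 hv
      exact (Finset.mem_sdiff.1 (hIZ y hy h)).2
  have hind : G.IsIndepSet ((insert p (R.biUnion I) : Finset V) : Set V) := by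
    intro a ha b hb hab
    rw [Finset.mem_coe, Finset.mem_insert] at ha hb
    rcases ha with rfl | ha <;> rcases hb with rfl | hb
    · exact absurd rfl hab
    · obtain ⟨y, hy, h⟩ := Finset.mem_biUnion.1 hb
      exact hpI y hy b h
    · obtain ⟨y, hy, h⟩ := Finset.mem_biUnion.1 ha
      exact fun h' => hpI y hy a h h'.symm
    · exact hR.indep hI' hi ha hb hab
  have hsum : ∑ v ∈ insert p (R.biUnion I), dU G Finset.univ v + 1 ≤
      (Finset.univ : Finset V).card := by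
    rw [Finset.sum_insert hpn, hR.sum hI', hR.card_univ hL]
    have : ∑ y ∈ R, ∑ v ∈ I y, dU G Finset.univ v = ∑ y ∈ R, ∑ v ∈ I y,
        (dU G (comp G [c] y) v + ((att G [c] y).filter (fun w => G.Adj v w)).card) := by
      refine Finset.sum_congr rfl fun y hy => Finset.sum_congr rfl fun v hv => ?_
      exact deg_comp (hR.sub hy) (hI' y hy hv)
    rw [this]
    simpa using hs
  have hsum0 : ∑ v ∈ I₀, dU G Finset.univ v + 1 ≤ (Finset.univ : Finset V).card := by
    have := Finset.sum_le_sum_of_subset (f := fun v => dU G Finset.univ v) hI₀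
    omega
  have hgood : ∀ v, v ∉ W → Good G Finset.univ W v := fun v hv =>
    ⟨Finset.mem_univ _, hv, h2 v (Finset.mem_univ _)⟩
  obtain ⟨g1, g2⟩ := H35P.cyc_pkg hc hR h2 hI' hclean hWS hsur hp1 hp2 hlen hgam hp hI₀
    hI₀c.le
  refine ⟨I₀, fun v hv => hgood v (hout v (hI₀ hv)), fun a ha b hb => hind (hI₀ ha) (hI₀ hb),
    hI₀c, ?_, g1, g2, ?_⟩
  · intro N hN hnear
    by_cases hN2 : N.card ≤ 1
    · omega
    · exfalso
      push Not at hN2
      obtain ⟨y₁, hy₁, y₂, hy₂, hy12⟩ := Finset.one_lt_card.1 hN2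
      obtain ⟨v, hv⟩ := hK.ne
      have hv' := Finset.mem_sdiff.1 hv
      exact near_two h2 hv'.1 hv'.2 (hN hy₁) (hN hy₂) hy12 (hnear y₁ hy₁ y₂ hy₂)
  · refine ⟨Finset.univ, Finset.Subset.refl _, ?_, ?_⟩
    · have h1 : c.length ≤ Fintype.card V := hc.1.length_le_card
      have h3 : 3 ≤ c.length := hc.2.1
      rw [Finset.card_univ]
      omega
    · intro x _ x' _ hne
      have : min 1 W.card ≤ 1 := min_le_left _ _
      exact (hgam x x' hne).mono (Finset.Subset.refl _) (by omega)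

end Pool.Agent.H62P
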