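import Pool.Agent.H62P.Skel

/-! The frame truncated at `K`: disjoint unions, cut vertices. -/

namespace Pool.Agent.H62P

open List Pool.Agent.TF82 Pool.Agent.TFC Pool.Agent.TFB Pool.Agent.EG31

universe u

set_option linter.unusedSectionVars false
set_option linter.unusedVariables false

variable {V : Type u} [DecidableEq V]

/-- the statement of the induction for `k < K` only -/
def PWK (K : ℕ) (G : SimpleGraph V) [DecidableRel G.Adj] (U W : Finset V) : Prop :=
  ∀ k, k < K → ¬ CovW G U W k → ∃ I : Finset V, I ⊆ U \ W ∧ G.IsIndepSet (I : Set V) ∧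
    I.card = k + 1 ∧ ∑ v ∈ I, dU G U v + 1 ≤ U.card

theorem PW_iff {G : SimpleGraph V} [DecidableRel G.Adj] {U W : Finset V} :
    PW G U W ↔ ∀ K, PWK K G U W :=
  ⟨fun h K k _ hk => h k hk, fun h k hk => h (k + 1) k (Nat.lt_succ_self k) hk⟩

/-- an independent set of any size `m ≤ K` up to the minimum number of cycles -/
theorem PWK.get {K : ℕ} {G : SimpleGraph V} [DecidableRel G.Adj] {U W : Finset V}
    (hP : PWK K G U W) {m : ℕ} (hmK : m ≤ K) (hm : ∀ k, k < m → ¬ CovW G U W k) :
    ∃ I : Finset V, I ⊆ U \ W ∧ G.IsIndepSet (I : Set V) ∧ I.card = m ∧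
      (m ≠ 0 → ∑ v ∈ I, dU G U v + 1 ≤ U.card) ∧ ∑ v ∈ I, dU G U v ≤ U.card := by
  rcases Nat.eq_zero_or_pos m with rfl | hpos
  · exact ⟨∅, by simp, by simp [SimpleGraph.IsIndepSet], rfl, by simp, by simp⟩
  · obtain ⟨I, h3, h4, h5, h6⟩ := hP (m - 1) (by omega) (hm _ (by omega))
    exact ⟨I, h3, h4, by omega, fun _ => h6, by omega⟩

/-- union of independent sets of two sides without edges between them -/
theorem indep_union {G : SimpleGraph V} {I J A B : Finset V} (hI : G.IsIndepSet (I : Set V))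
    (hJ : G.IsIndepSet (J : Set V)) (hIA : I ⊆ A) (hJB : J ⊆ B)
    (hno : ∀ a ∈ A, ∀ b ∈ B, ¬ G.Adj a b) : G.IsIndepSet ((I ∪ J : Finset V) : Set V) := by
  intro x hx y hy hxy
  rw [Finset.mem_coe, Finset.mem_union] at hx hy
  rcases hx with hx | hx <;> rcases hy with hy | hy
  · exact hI hx hy hxy
  · exact hno x (hIA hx) y (hJB hy)
  · intro h; exact hno y (hIA hy) x (hJB hx) h.symm
  · exact hJ hx hy hxy

theorem PWK_disj {K : ℕ} {G : SimpleGraph V} [DecidableRel G.Adj] {U W A B : Finset V}
    (hW : W ⊆ U) (hC : CW G U W) (hU : A ∪ B = U) (hAB : Disjoint A B)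
    (hno : ∀ a ∈ A, ∀ b ∈ B, ¬ G.Adj a b) (hCA : CW G A (W ∩ A)) (hCB : CW G B (W ∩ B))
    (hPA : PWK K G A (W ∩ A)) (hPB : PWK K G B (W ∩ B)) : PWK K G U W := by
  have hdA : ∀ v ∈ A, dU G U v = dU G A v := by
    intro v hv
    rw [← hU]
    exact dU_union_of_no (fun b hb => hno v hv b hb)
  have hdB : ∀ v ∈ B, dU G U v = dU G B v := by
    intro v hv
    rw [← hU, Finset.union_comm]
    exact dU_union_of_no (fun a ha h => hno a ha v hv h.symm)
  have hAU : A ⊆ U := hU ▸ Finset.subset_union_left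
  have hBU : B ⊆ U := hU ▸ Finset.subset_union_right
  intro k hkK hk
  obtain ⟨a, ha1, ha2⟩ := exists_min_cov Finset.inter_subset_right hCA
  obtain ⟨b, hb1, hb2⟩ := exists_min_cov Finset.inter_subset_right hCB
  have hkab : k < a + b := by
    by_contra h
    push Not at h
    apply hk
    refine ((CovW.union hAB ha1 hb1).mono h).weaken (by rw [hU]) ?_
    rw [hU]
    intro x hx
    have := Finset.mem_sdiff.1 hx
    refine Finset.mem_sdiff.2 ⟨this.1, fun h => this.2 ?_⟩
    rcases Finset.mem_union.1 h with h | h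
    · exact (Finset.mem_inter.1 h).1
    · exact (Finset.mem_inter.1 h).1
  obtain ⟨I, hI1, hI2, hI3, hI4, hI5⟩ := hPA.get (m := min a (k + 1))
    (by omega) (fun l hl => ha2 l (by omega))
  obtain ⟨J, hJ1, hJ2, hJ3, hJ4, hJ5⟩ := hPB.get (m := k + 1 - min a (k + 1))
    (by omega) (fun l hl => hb2 l (by omega))
  have hIA : I ⊆ A := hI1.trans Finset.sdiff_subset
  have hJB : J ⊆ B := hJ1.trans Finset.sdiff_subset
  have hIJ : Disjoint I J :=
    Finset.disjoint_of_subset_left hIA (Finset.disjoint_of_subset_right hJB hAB)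
  refine ⟨I ∪ J, ?_, indep_union hI2 hJ2 hIA hJB hno, ?_, ?_⟩
  · intro x hx
    rcases Finset.mem_union.1 hx with h | h
    · have := Finset.mem_sdiff.1 (hI1 h)
      exact Finset.mem_sdiff.2 ⟨hAU this.1, fun h => this.2 (Finset.mem_inter.2 ⟨h, this.1⟩)⟩
    · have := Finset.mem_sdiff.1 (hJ1 h)
      exact Finset.mem_sdiff.2 ⟨hBU this.1, fun h => this.2 (Finset.mem_inter.2 ⟨h, this.1⟩)⟩
  · rw [Finset.card_union_of_disjoint hIJ]; omega
  · have hs1 : ∑ v ∈ I, dU G U v = ∑ v ∈ I, dU G A v :=
      Finset.sum_congr rfl (fun v hv => hdA v (hIA hv))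
    have hs2 : ∑ v ∈ J, dU G U v = ∑ v ∈ J, dU G B v :=
      Finset.sum_congr rfl (fun v hv => hdB v (hJB hv))
    rw [Finset.sum_union hIJ, hs1, hs2]
    have hc : U.card = A.card + B.card := by rw [← hU, Finset.card_union_of_disjoint hAB]
    by_cases h0 : min a (k + 1) = 0
    · have h1 := hJ4 (by omega)
      omega
    · have h1 := hI4 h0
      omega

theorem PWK_side {K : ℕ} {G : SimpleGraph V} [DecidableRel G.Adj] {U W A B : Finset V} {z : V}
    (hW : W ⊆ U) (hC : CW G U W) (hz : z ∈ U) (hU : insert z (A ∪ B) = U)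
    (hAB : Disjoint A B) (hzA : z ∉ A) (hzB : z ∉ B) (hno : ∀ a ∈ A, ∀ b ∈ B, ¬ G.Adj a b)
    (hB : B ⊆ W)
    (hIH : CW G (insert z A) (W ∩ insert z A) → PWK K G (insert z A) (W ∩ insert z A)) :
    PWK K G U W := by
  have hU' : insert z A ∪ B = U := by rw [Finset.insert_union, hU]
  have hAU : insert z A ⊆ U := by rw [← hU']; exact Finset.subset_union_left
  have hdis : Disjoint (insert z A) B := by
    rw [Finset.disjoint_insert_left]
    exact ⟨hzB, hAB⟩
  have hcU : U.card = (insert z A).card + B.card := by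
    rw [← hU', Finset.card_union_of_disjoint hdis]
  have hcW : (W ∩ insert z A).card + B.card ≤ W.card := by
    rw [← Finset.card_union_of_disjoint]
    · exact Finset.card_le_card (Finset.union_subset Finset.inter_subset_left hB)
    · exact Finset.disjoint_of_subset_left Finset.inter_subset_right hdis
  have hd : ∀ v, dU G U v ≤ dU G (insert z A) v + B.card := by
    intro v
    rw [← hU']
    exact (dU_union_le _ _ v).trans (Nat.add_le_add_left (dU_le _ _) _)
  have hdA : ∀ v ∈ A, dU G U v = dU G (insert z A) v := by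
    intro v hv
    rw [← hU']
    exact dU_union_of_no (fun b hb => hno v hv b hb)
  have hsd : (insert z A) \ (W ∩ insert z A) ⊆ U \ W := by
    intro x hx
    have := Finset.mem_sdiff.1 hx
    exact Finset.mem_sdiff.2 ⟨hAU this.1, fun h => this.2 (Finset.mem_inter.2 ⟨h, this.1⟩)⟩
  have hCA : CW G (insert z A) (W ∩ insert z A) := by
    intro I hI hind v hv
    have h1 := hC I (hI.trans hsd) hind v hv
    have h2 := hd v
    omega
  intro k hkK hk
  obtain ⟨I, h1, h2, h3, h4⟩ := hIH hCA k hkK (by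
    intro h
    apply hk
    refine h.weaken hAU ?_
    intro x hx
    have hx' := Finset.mem_sdiff.1 hx
    have : x ∈ insert z A := by
      have h5 : x ∈ insert z A ∪ B := by rw [hU']; exact hx'.1
      rcases Finset.mem_union.1 h5 with h | h
      · exact h
      · exact absurd (hB h) hx'.2
    exact Finset.mem_sdiff.2 ⟨this, fun h => hx'.2 (Finset.mem_inter.1 h).1⟩)
  refine ⟨I, h1.trans hsd, h2, h3, ?_⟩
  have hIs : I ⊆ insert z A := h1.trans Finset.sdiff_subset
  have hsum : ∑ v ∈ I, dU G U v ≤ ∑ v ∈ I, dU G (insert z A) v + B.card := by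
    by_cases hzI : z ∈ I
    · have e1 := Finset.add_sum_erase I (fun v => dU G U v) hzI
      have e2 := Finset.add_sum_erase I (fun v => dU G (insert z A) v) hzI
      have e3 : ∑ v ∈ I.erase z, dU G U v = ∑ v ∈ I.erase z, dU G (insert z A) v := by
        refine Finset.sum_congr rfl (fun v hv => hdA v ?_)
        have hv' := Finset.mem_erase.1 hv
        rcases Finset.mem_insert.1 (hIs hv'.2) with h | h
        · exact absurd h hv'.1
        · exact h
      have e4 := hd z
      omega
    · have e3 : ∑ v ∈ I, dU G U v = ∑ v ∈ I, dU G (insert z A) v := by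
        refine Finset.sum_congr rfl (fun v hv => hdA v ?_)
        rcases Finset.mem_insert.1 (hIs hv) with h | h
        · exact absurd (h ▸ hv) hzI
        · exact h
      omega
  omega

/-- CUT VERTEX STEP, truncated at `K`. -/
theorem PWK_cut {K : ℕ} {G : SimpleGraph V} [DecidableRel G.Adj] {U W A B : Finset V} {z : V}
    (hW : W ⊆ U) (hC : CW G U W) (hz : z ∈ U) (hU : insert z (A ∪ B) = U)
    (hAB : Disjoint A B) (hzA : z ∉ A) (hzB : z ∉ B) (hno : ∀ a ∈ A, ∀ b ∈ B, ¬ G.Adj a b)
    (hAW : (A \ W).Nonempty) (hBW : (B \ W).Nonempty)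
    (hIH : ∀ U' W', W' ⊆ U' → U'.card < U.card → CW G U' W' → PWK K G U' W') :
    PWK K G U W := by
  have hAU : A ⊆ U := by
    rw [← hU]; exact Finset.subset_union_left.trans (Finset.subset_insert _ _)
  have hBU : B ⊆ U := by
    rw [← hU]; exact Finset.subset_union_right.trans (Finset.subset_insert _ _)
  have hzAB : z ∉ A ∪ B := by
    rw [Finset.mem_union]; push Not; exact ⟨hzA, hzB⟩
  have hcU : U.card = A.card + B.card + 1 := by
    rw [← hU, Finset.card_insert_of_notMem hzAB, Finset.card_union_of_disjoint hAB]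
  have hAp : 1 ≤ A.card :=
    Finset.card_pos.2 (hAW.mono Finset.sdiff_subset)
  have hBp : 1 ≤ B.card :=
    Finset.card_pos.2 (hBW.mono Finset.sdiff_subset)
  -- the one-sided facts
  have side : ∀ (X Y : Finset V), insert z (X ∪ Y) = U → z ∉ X → z ∉ Y → X ⊆ U → Y ⊆ U →
      (∀ x ∈ X, ∀ y ∈ Y, ¬ G.Adj x y) → (Y \ W).Nonempty →
      (∀ v ∈ X, dU G U v = dU G (insert z X) v) ∧ (∀ v ∈ X, dU G U v ≤ dU G X v + 1) ∧
      CW G (insert z X) (insert z (W ∩ X)) ∧ CW G X (W ∩ X) := by
    intro X Y hXY hzX hzY hXU hYU hnoX hYW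
    have h1 : ∀ v ∈ X, dU G U v = dU G (insert z X) v := by
      intro v hv
      rw [← hXY, ← Finset.insert_union]
      exact dU_union_of_no (fun b hb => hnoX v hv b hb)
    have h2 : ∀ v ∈ X, dU G U v ≤ dU G X v + 1 := by
      intro v hv
      rw [h1 v hv, Finset.insert_eq, Finset.union_comm]
      refine (dU_union_le _ _ v).trans (Nat.add_le_add_left ?_ _)
      have := dU_le (G := G) {z} v
      simpa using this
    have h3 : ∀ I : Finset V, I ⊆ X \ W → G.IsIndepSet (I : Set V) → ∀ v ∈ I,
        I.card + 2 + W.card ≤ dU G U v := by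
      intro I hI hind v hv
      obtain ⟨y, hy⟩ := hYW
      have hy' := Finset.mem_sdiff.1 hy
      have hyI : y ∉ I := by
        intro h
        have hyX := (Finset.mem_sdiff.1 (hI h)).1
        -- `y` is in both sides: it has no neighbour at all
        have h5 := hC {y} (by
          intro x hx
          rw [Finset.mem_singleton] at hx
          rw [hx]
          exact Finset.mem_sdiff.2 ⟨hYU hy'.1, hy'.2⟩) (by simp [SimpleGraph.IsIndepSet]) y
          (Finset.mem_singleton_self _)
        have h6 : dU G U y ≤ 1 := by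
          rw [h1 y hyX, Finset.insert_eq, Finset.union_comm, ]
          have h7 : dU G (X ∪ {z}) y ≤ dU G X y + 1 := by
            refine (dU_union_le _ _ y).trans (Nat.add_le_add_left ?_ _)
            have := dU_le (G := G) {z} y
            simpa using this
          have h8 : dU G X y = 0 := by
            unfold dU
            rw [Finset.card_eq_zero, Finset.filter_eq_empty_iff]
            intro x hx hadj
            exact hnoX x hx y hy'.1 hadj.symm
          omega
        simp at h5
        omega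
      have h4 := hC (insert y I) (by
          intro x hx
          rcases Finset.mem_insert.1 hx with rfl | hx
          · exact Finset.mem_sdiff.2 ⟨hYU hy'.1, hy'.2⟩
          · have := Finset.mem_sdiff.1 (hI hx)
            exact Finset.mem_sdiff.2 ⟨hXU this.1, this.2⟩) (by
          intro a ha b hb hab
          rw [Finset.mem_coe, Finset.mem_insert] at ha hb
          rcases ha with rfl | ha <;> rcases hb with rfl | hb
          · exact absurd rfl hab
          · intro h
            exact hnoX b (Finset.mem_sdiff.1 (hI hb)).1 _ hy'.1 h.symm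
          · exact hnoX a (Finset.mem_sdiff.1 (hI ha)).1 _ hy'.1
          · exact hind ha hb hab) v (Finset.mem_insert_of_mem hv)
      rw [Finset.card_insert_of_notMem hyI] at h4
      omega
    have hcap : (W ∩ X).card ≤ W.card := Finset.card_le_card Finset.inter_subset_left
    refine ⟨h1, h2, ?_, ?_⟩
    · intro I hI hind v hv
      have hI' : I ⊆ X \ W := by
        intro x hx
        have hx' := Finset.mem_sdiff.1 (hI hx)
        rw [Finset.mem_insert, Finset.mem_insert, Finset.mem_inter] at hx'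
        push Not at hx'
        rcases hx'.1 with h | h
        · exact absurd h hx'.2.1
        · exact Finset.mem_sdiff.2 ⟨h, fun hw => hx'.2.2 hw h⟩
      have h5 := h3 I hI' hind v hv
      rw [h1 v (Finset.mem_sdiff.1 (hI' hv)).1] at h5
      have h6 := Finset.card_insert_le z (W ∩ X)
      omega
    · intro I hI hind v hv
      have hI' : I ⊆ X \ W := by
        intro x hx
        have hx' := Finset.mem_sdiff.1 (hI hx)
        exact Finset.mem_sdiff.2 ⟨hx'.1, fun h => hx'.2 (Finset.mem_inter.2 ⟨h, hx'.1⟩)⟩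
      have h5 := h3 I hI' hind v hv
      have h6 := h2 v (Finset.mem_sdiff.1 (hI' hv)).1
      omega
  obtain ⟨hdA, hdA', hCA1, hCA0⟩ := side A B hU hzA hzB hAU hBU hno hBW
  obtain ⟨hdB, hdB', hCB1, hCB0⟩ := side B A (by rw [Finset.union_comm, hU]) hzB hzA hBU hAU
    (fun b hb a ha h => hno a ha b hb h.symm) hAW
  have hsA1 : insert z (W ∩ A) ⊆ insert z A := Finset.insert_subset_insert _ Finset.inter_subset_right
  have hsB1 : insert z (W ∩ B) ⊆ insert z B := Finset.insert_subset_insert _ Finset.inter_subset_right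
  have hcA1 : (insert z A).card = A.card + 1 := Finset.card_insert_of_notMem hzA
  have hcB1 : (insert z B).card = B.card + 1 := Finset.card_insert_of_notMem hzB
  have hPA1 := hIH _ _ hsA1 (by omega) hCA1
  have hPB1 := hIH _ _ hsB1 (by omega) hCB1
  have hPA0 := hIH A (W ∩ A) Finset.inter_subset_right (by omega) hCA0
  have hPB0 := hIH B (W ∩ B) Finset.inter_subset_right (by omega) hCB0
  obtain ⟨a1, ha1, ha1'⟩ := exists_min_cov hsA1 hCA1
  obtain ⟨b1, hb1, hb1'⟩ := exists_min_cov hsB1 hCB1
  obtain ⟨a0, ha0, ha0'⟩ := exists_min_cov Finset.inter_subset_right hCA0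
  obtain ⟨b0, hb0, hb0'⟩ := exists_min_cov Finset.inter_subset_right hCB0
  -- covers of the two sides give a cover of everything
  have glue : ∀ (X Y : Finset V), X ⊆ U → Y ⊆ U → Disjoint (insert z X) Y →
      (∀ x ∈ U, x = z ∨ x ∈ X ∨ x ∈ Y) → ∀ p q, CovW G (insert z X) (insert z (W ∩ X)) p →
      CovW G Y (W ∩ Y) q → CovW G U W (p + q) := by
    intro X Y hXU hYU hdis hall p q hp hq
    obtain ⟨L, hL1, hL2, hL3, hL4⟩ := CovW.union hdis hp hq
    have hins : insert z X ∪ Y ⊆ U := by
      intro x hx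
      rcases Finset.mem_union.1 hx with h | h
      · rcases Finset.mem_insert.1 h with rfl | h
        · exact hz
        · exact hXU h
      · exact hYU h
    have hcov : ∀ x ∈ U \ W, x ≠ z → x ∈ L.flatten := by
      intro x hx hxz
      have hx' := Finset.mem_sdiff.1 hx
      apply hL4
      rw [Finset.mem_sdiff, Finset.mem_union, Finset.mem_union, Finset.mem_insert,
        Finset.mem_insert, Finset.mem_inter, Finset.mem_inter]
      refine ⟨?_, ?_⟩
      · rcases hall x hx'.1 with h | h | h
        · exact absurd h hxz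
        · exact Or.inl (Or.inr h)
        · exact Or.inr h
      · push Not
        exact ⟨⟨hxz, fun h => absurd h hx'.2⟩, fun h => absurd h hx'.2⟩
    by_cases hzW : z ∈ W
    · exact ⟨L, hL1, hL2, fun x hx => hins (hL3 x hx), fun x hx =>
        hcov x hx (fun h => (Finset.mem_sdiff.1 hx).2 (h ▸ hzW))⟩
    · exact absorb hW (Finset.mem_sdiff.2 ⟨hz, hzW⟩) (fun I h1 h2 h3 => hC I h1 h2 z h3)
        ⟨L, hL1, hL2, fun x hx => hins (hL3 x hx), hcov⟩
  have hallAB : ∀ x ∈ U, x = z ∨ x ∈ A ∨ x ∈ B := by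
    intro x hx
    rw [← hU, Finset.mem_insert, Finset.mem_union] at hx
    exact hx
  intro k hkK hk
  have hk1 : k < a1 + b0 := by
    by_contra h
    push Not at h
    exact hk ((glue A B hAU hBU (by rw [Finset.disjoint_insert_left]; exact ⟨hzB, hAB⟩) hallAB
      a1 b0 ha1 hb0).mono h)
  have hk2 : k < b1 + a0 := by
    by_contra h
    push Not at h
    exact hk ((glue B A hBU hAU (by rw [Finset.disjoint_insert_left]; exact ⟨hzA, hAB.symm⟩)
      (fun x hx => by rcases hallAB x hx with h | h | h <;> tauto) b1 a0 hb1 ha0).mono h)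
  have ha0p : 1 ≤ a0 := by
    by_contra h
    have h0 : a0 = 0 := by omega
    rw [h0] at ha0
    refine cov_pos ?_ ha0
    obtain ⟨x, hx⟩ := hAW
    have hx' := Finset.mem_sdiff.1 hx
    exact ⟨x, Finset.mem_sdiff.2 ⟨hx'.1, fun h => hx'.2 (Finset.mem_inter.1 h).1⟩⟩
  have hb0p : 1 ≤ b0 := by
    by_contra h
    have h0 : b0 = 0 := by omega
    rw [h0] at hb0
    refine cov_pos ?_ hb0
    obtain ⟨x, hx⟩ := hBW
    have hx' := Finset.mem_sdiff.1 hx
    exact ⟨x, Finset.mem_sdiff.2 ⟨hx'.1, fun h => hx'.2 (Finset.mem_inter.1 h).1⟩⟩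
  have hsub1 : ∀ X : Finset V, X ⊆ U → (insert z X) \ (insert z (W ∩ X)) ⊆ X \ W := by
    intro X _ x hx
    have hx' := Finset.mem_sdiff.1 hx
    rw [Finset.mem_insert, Finset.mem_insert, Finset.mem_inter] at hx'
    push Not at hx'
    rcases hx'.1 with h | h
    · exact absurd h hx'.2.1
    · exact Finset.mem_sdiff.2 ⟨h, fun hw => hx'.2.2 hw h⟩
  have hsub0 : ∀ X : Finset V, X \ (W ∩ X) ⊆ X \ W := by
    intro X x hx
    have hx' := Finset.mem_sdiff.1 hx
    exact Finset.mem_sdiff.2 ⟨hx'.1, fun h => hx'.2 (Finset.mem_inter.2 ⟨h, hx'.1⟩)⟩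
  have hup : ∀ X : Finset V, X ⊆ U → X \ W ⊆ U \ W := fun X hX =>
    Finset.sdiff_subset_sdiff hX (Finset.Subset.refl _)
  by_cases hcase : a1 < a0 ∧ b1 < b0
  · -- both sides are helped: one superfluous element
    obtain ⟨I, hI1, hI2, hI3, hI4, hI5⟩ := hPA0.get (m := min a0 (k + 1))
      (by omega) (fun l hl => ha0' l (by omega))
    obtain ⟨J, hJ1, hJ2, hJ3, hJ4, hJ5⟩ := hPB0.get (m := k + 2 - min a0 (k + 1))
      (by omega) (fun l hl => hb0' l (by omega))
    have hIA : I ⊆ A := hI1.trans Finset.sdiff_subset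
    have hJB : J ⊆ B := hJ1.trans Finset.sdiff_subset
    have hIJ : Disjoint I J :=
      Finset.disjoint_of_subset_left hIA (Finset.disjoint_of_subset_right hJB hAB)
    refine saving (I := I ∪ J) hC ?_ (indep_union hI2 hJ2 hIA hJB hno) ?_ ?_
    · intro x hx
      rcases Finset.mem_union.1 hx with h | h
      · exact hup A hAU (hsub0 A (hI1 h))
      · exact hup B hBU (hsub0 B (hJ1 h))
    · rw [Finset.card_union_of_disjoint hIJ]; omega
    · have hs1 : ∑ v ∈ I, dU G U v ≤ ∑ v ∈ I, dU G A v + I.card := by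
        calc ∑ v ∈ I, dU G U v ≤ ∑ v ∈ I, (dU G A v + 1) :=
              Finset.sum_le_sum (fun v hv => hdA' v (hIA hv))
          _ = _ := by rw [Finset.sum_add_distrib]; simp
      have hs2 : ∑ v ∈ J, dU G U v ≤ ∑ v ∈ J, dU G B v + J.card := by
        calc ∑ v ∈ J, dU G U v ≤ ∑ v ∈ J, (dU G B v + 1) :=
              Finset.sum_le_sum (fun v hv => hdB' v (hJB hv))
          _ = _ := by rw [Finset.sum_add_distrib]; simp
      rw [Finset.sum_union hIJ, Finset.card_union_of_disjoint hIJ]
      omega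
  · have hk3 : k < a1 + b1 := by
      by_contra h
      push Not at h
      apply hcase
      constructor <;> omega
    obtain ⟨I, hI1, hI2, hI3, hI4, hI5⟩ := hPA1.get (m := min a1 (k + 1))
      (by omega) (fun l hl => ha1' l (by omega))
    obtain ⟨J, hJ1, hJ2, hJ3, hJ4, hJ5⟩ := hPB1.get (m := k + 1 - min a1 (k + 1))
      (by omega) (fun l hl => hb1' l (by omega))
    have hI1' := hI1.trans (hsub1 A hAU)
    have hJ1' := hJ1.trans (hsub1 B hBU)
    have hIA : I ⊆ A := hI1'.trans Finset.sdiff_subset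
    have hJB : J ⊆ B := hJ1'.trans Finset.sdiff_subset
    have hIJ : Disjoint I J :=
      Finset.disjoint_of_subset_left hIA (Finset.disjoint_of_subset_right hJB hAB)
    have hs1 : ∑ v ∈ I, dU G U v = ∑ v ∈ I, dU G (insert z A) v :=
      Finset.sum_congr rfl (fun v hv => hdA v (hIA hv))
    have hs2 : ∑ v ∈ J, dU G U v = ∑ v ∈ J, dU G (insert z B) v :=
      Finset.sum_congr rfl (fun v hv => hdB v (hJB hv))
    refine ⟨I ∪ J, ?_, indep_union hI2 hJ2 hIA hJB hno, ?_, ?_⟩
    · intro x hx
      rcases Finset.mem_union.1 hx with h | h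
      · exact hup A hAU (hI1' h)
      · exact hup B hBU (hJ1' h)
    · rw [Finset.card_union_of_disjoint hIJ]; omega
    · rw [Finset.sum_union hIJ, hs1, hs2]
      by_cases h0 : min a1 (k + 1) = 0
      · have e0 : I = ∅ := Finset.card_eq_zero.1 (by omega)
        have h1 := hJ4 (by omega)
        subst e0
        simp only [Finset.sum_empty]
        omega
      · have h1 := hI4 h0
        by_cases h2 : k + 1 - min a1 (k + 1) = 0
        · have e0 : J = ∅ := Finset.card_eq_zero.1 (by omega)
          subst e0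
          simp only [Finset.sum_empty]
          omega
        · have h3 := hJ4 h2
          omega

end Pool.Agent.H62P
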