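import Pool.Agent.H62P.Skel2

/-! The cut vertex step. -/

namespace Pool.Agent.H62P

open List Pool.Agent.TF82 Pool.Agent.TFC Pool.Agent.TFB Pool.Agent.EG31

universe u

set_option linter.unusedSectionVars false
set_option linter.unusedVariables false

variable {V : Type u} [DecidableEq V]

/-- the pieces at a cut vertex stay in the class -/
theorem cut_side {G : SimpleGraph V} [DecidableRel G.Adj] {U W A B : Finset V} {z : V}
    (hW : W ⊆ U) (hC : CW G U W) (hU : insert z (A ∪ B) = U)
    (hAB : Disjoint A B) (hzA : z ∉ A) (hzB : z ∉ B) (hno : ∀ a ∈ A, ∀ b ∈ B, ¬ G.Adj a b)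
    (hBW : (B \ W).Nonempty) :
    (∀ v ∈ A, dU G U v = dU G (insert z A) v) ∧ (∀ v ∈ A, dU G U v ≤ dU G A v + 1) ∧
      CW G A (W ∩ A) ∧ CW G (insert z A) (insert z (W ∩ A)) := by
  have hU' : insert z A ∪ B = U := by rw [Finset.insert_union, hU]
  have hAU : A ⊆ U := by
    rw [← hU']
    exact (Finset.subset_insert _ _).trans Finset.subset_union_left
  have hBU : B ⊆ U := by rw [← hU']; exact Finset.subset_union_right
  have hdA : ∀ v ∈ A, dU G U v = dU G (insert z A) v := by
    intro v hv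
    rw [← hU']
    exact dU_union_of_no (fun b hb => hno v hv b hb)
  have hdA1 : ∀ v ∈ A, dU G U v ≤ dU G A v + 1 := by
    intro v hv
    rw [hdA v hv]
    have h1 : insert z A = A ∪ {z} := by
      ext x; simp
    rw [h1]
    refine (dU_union_le _ _ v).trans (Nat.add_le_add_left ?_ _)
    exact (dU_le _ _).trans (by simp)
  obtain ⟨b, hb⟩ := hBW
  have hbB := (Finset.mem_sdiff.1 hb).1
  have hbW := (Finset.mem_sdiff.1 hb).2
  have key : ∀ I : Finset V, I ⊆ A → Disjoint I W → G.IsIndepSet (I : Set V) → ∀ v ∈ I,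
      I.card + 2 + W.card ≤ dU G U v := by
    intro I hI hIW hind v hv
    have hbI : b ∉ I := fun h => Finset.disjoint_left.1 hAB (hI h) hbB
    have h1 := hC (insert b I) (by
        intro x hx
        rcases Finset.mem_insert.1 hx with rfl | hx
        · exact Finset.mem_sdiff.2 ⟨hBU hbB, hbW⟩
        · exact Finset.mem_sdiff.2 ⟨hAU (hI hx), Finset.disjoint_left.1 hIW hx⟩) (by
        intro x hx y hy hxy
        rw [Finset.mem_coe, Finset.mem_insert] at hx hy
        rcases hx with rfl | hx <;> rcases hy with rfl | hy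
        · exact absurd rfl hxy
        · intro h; exact hno y (hI hy) _ hbB h.symm
        · exact hno x (hI hx) _ hbB
        · exact hind hx hy hxy) v (Finset.mem_insert_of_mem hv)
    rw [Finset.card_insert_of_notMem hbI] at h1
    omega
  refine ⟨hdA, hdA1, ?_, ?_⟩
  · intro I hI hind v hv
    have hIA : I ⊆ A := hI.trans Finset.sdiff_subset
    have hIW : Disjoint I W := Finset.disjoint_left.2 (fun x hx hxW =>
      (Finset.mem_sdiff.1 (hI hx)).2 (Finset.mem_inter.2 ⟨hxW, hIA hx⟩))
    have h1 := key I hIA hIW hind v hv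
    have h2 := hdA1 v (hIA hv)
    have h3 : (W ∩ A).card ≤ W.card := Finset.card_le_card Finset.inter_subset_left
    omega
  · intro I hI hind v hv
    have hIA : I ⊆ A := by
      intro x hx
      have h1 := Finset.mem_sdiff.1 (hI hx)
      rcases Finset.mem_insert.1 h1.1 with rfl | h
      · exact absurd (Finset.mem_insert_self _ _) h1.2
      · exact h
    have hIW : Disjoint I W := Finset.disjoint_left.2 (fun x hx hxW =>
      (Finset.mem_sdiff.1 (hI hx)).2
        (Finset.mem_insert_of_mem (Finset.mem_inter.2 ⟨hxW, hIA hx⟩)))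
    have h1 := key I hIA hIW hind v hv
    rw [hdA v (hIA hv)] at h1
    have h3 : (insert z (W ∩ A)).card ≤ W.card + 1 :=
      (Finset.card_insert_le _ _).trans (Nat.add_le_add_right
        (Finset.card_le_card Finset.inter_subset_left) _)
    omega

/-- absorption at the cut vertex: covers of the two sides, `z` optional -/
theorem cut_absorb {G : SimpleGraph V} [DecidableRel G.Adj] {U W : Finset V} {z : V}
    (hW : W ⊆ U) (hC : CW G U W) (hz : z ∈ U) {k : ℕ} (h : CovW G U (insert z W) k) :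
    CovW G U W k := by
  by_cases hzW : z ∈ W
  · rwa [Finset.insert_eq_of_mem hzW] at h
  refine absorb hW (Finset.mem_sdiff.2 ⟨hz, hzW⟩) (fun I hI hind hzI => hC I hI hind z hzI) ?_
  obtain ⟨L, h1, h2, h3, h4⟩ := h
  refine ⟨L, h1, h2, h3, fun x hx hxz => h4 x ?_⟩
  have hx' := Finset.mem_sdiff.1 hx
  refine Finset.mem_sdiff.2 ⟨hx'.1, fun h => ?_⟩
  rcases Finset.mem_insert.1 h with h | h
  · exact hxz h
  · exact hx'.2 h

theorem cut_step : CutStep.{u} := by
  intro V _ _ G _ U W A B z hW hC hz hU hAB hzA hzB hno hAW hBW hIH k hk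
  have hno' : ∀ b ∈ B, ∀ a ∈ A, ¬ G.Adj b a := fun b hb a ha h => hno a ha b hb h.symm
  have hU2 : insert z (B ∪ A) = U := by rw [Finset.union_comm, hU]
  obtain ⟨hdA, hdA1, hCA, hCA'⟩ := cut_side hW hC hU hAB hzA hzB hno hBW
  obtain ⟨hdB, hdB1, hCB, hCB'⟩ := cut_side hW hC hU2 hAB.symm hzB hzA hno' hAW
  have hzAB : z ∉ A ∪ B := by
    rw [Finset.mem_union]; push Not; exact ⟨hzA, hzB⟩
  have hcU : U.card = A.card + B.card + 1 := by
    rw [← hU, Finset.card_insert_of_notMem hzAB, Finset.card_union_of_disjoint hAB]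
  have hAU : A ⊆ U := by
    rw [← hU]; exact Finset.subset_union_left.trans (Finset.subset_insert _ _)
  have hBU : B ⊆ U := by
    rw [← hU]; exact Finset.subset_union_right.trans (Finset.subset_insert _ _)
  have hAp : 1 ≤ A.card := Finset.card_pos.2 (hAW.mono Finset.sdiff_subset)
  have hBp : 1 ≤ B.card := Finset.card_pos.2 (hBW.mono Finset.sdiff_subset)
  have hneA : (A \ (W ∩ A)).Nonempty := by
    obtain ⟨x, hx⟩ := hAW
    have := Finset.mem_sdiff.1 hx
    exact ⟨x, Finset.mem_sdiff.2 ⟨this.1, fun h => this.2 (Finset.mem_inter.1 h).1⟩⟩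
  have hneB : (B \ (W ∩ B)).Nonempty := by
    obtain ⟨x, hx⟩ := hBW
    have := Finset.mem_sdiff.1 hx
    exact ⟨x, Finset.mem_sdiff.2 ⟨this.1, fun h => this.2 (Finset.mem_inter.1 h).1⟩⟩
  have hPA := hIH A (W ∩ A) Finset.inter_subset_right (by omega) hCA
  have hPB := hIH B (W ∩ B) Finset.inter_subset_right (by omega) hCB
  obtain ⟨a, ha1, ha2, ha3, I, hI1, hI2, hI3, hI4⟩ := hPA.min Finset.inter_subset_right hCA hneA
  obtain ⟨b, hb1, hb2, hb3, J, hJ1, hJ2, hJ3, hJ4⟩ := hPB.min Finset.inter_subset_right hCB hneB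
  -- union of independent sets on both sides
  have hun : ∀ I J : Finset V, I ⊆ A → J ⊆ B → Disjoint I W → Disjoint J W →
      G.IsIndepSet (I : Set V) → G.IsIndepSet (J : Set V) →
      I ∪ J ⊆ U \ W ∧ G.IsIndepSet ((I ∪ J : Finset V) : Set V) ∧
        (I ∪ J).card = I.card + J.card ∧
        ∑ v ∈ I ∪ J, dU G U v = ∑ v ∈ I, dU G U v + ∑ v ∈ J, dU G U v := by
    intro I J hIA hJB hIW hJW hi hj
    have hIJ : Disjoint I J :=
      Finset.disjoint_of_subset_left hIA (Finset.disjoint_of_subset_right hJB hAB)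
    refine ⟨?_, ?_, Finset.card_union_of_disjoint hIJ, Finset.sum_union hIJ⟩
    · intro x hx
      rcases Finset.mem_union.1 hx with h | h
      · exact Finset.mem_sdiff.2 ⟨hAU (hIA h), Finset.disjoint_left.1 hIW h⟩
      · exact Finset.mem_sdiff.2 ⟨hBU (hJB h), Finset.disjoint_left.1 hJW h⟩
    · intro x hx y hy hxy
      rw [Finset.mem_coe, Finset.mem_union] at hx hy
      rcases hx with hx | hx <;> rcases hy with hy | hy
      · exact hi hx hy hxy
      · exact hno x (hIA hx) y (hJB hy)
      · exact hno' x (hJB hx) y (hIA hy)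
      · exact hj hx hy hxy
  by_cases hN : k + 2 ≤ a + b
  · -- many elements: SAVING
    have hIA : I ⊆ A := hI1.trans Finset.sdiff_subset
    have hJB : J ⊆ B := hJ1.trans Finset.sdiff_subset
    have hIW : Disjoint I W := Finset.disjoint_left.2 (fun x hx hxW =>
      (Finset.mem_sdiff.1 (hI1 hx)).2 (Finset.mem_inter.2 ⟨hxW, hIA hx⟩))
    have hJW : Disjoint J W := Finset.disjoint_left.2 (fun x hx hxW =>
      (Finset.mem_sdiff.1 (hJ1 hx)).2 (Finset.mem_inter.2 ⟨hxW, hJB hx⟩))
    obtain ⟨h1, h2, h3, h4⟩ := hun I J hIA hJB hIW hJW hI2 hJ2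
    have hsI : ∑ v ∈ I, dU G U v ≤ ∑ v ∈ I, dU G A v + I.card := by
      have := Finset.sum_le_sum (fun v hv => hdA1 v (hIA hv)) (s := I)
      rw [Finset.sum_add_distrib] at this
      simpa using this
    have hsJ : ∑ v ∈ J, dU G U v ≤ ∑ v ∈ J, dU G B v + J.card := by
      have := Finset.sum_le_sum (fun v hv => hdB1 v (hJB hv)) (s := J)
      rw [Finset.sum_add_distrib] at this
      simpa using this
    exact saving hC h1 h2 (by omega) (by omega)
  push Not at hN
  -- `z` helps neither side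
  have hcovU : ∀ p q : ℕ, CovW G (insert z A) (insert z (W ∩ A)) p →
      CovW G B (W ∩ B) q → CovW G U W (p + q) := by
    intro p q hp hq
    refine cut_absorb hW hC hz ?_
    have hd : Disjoint (insert z A) B := by
      rw [Finset.disjoint_insert_left]; exact ⟨hzB, hAB⟩
    refine (CovW.union hd hp hq).weaken ?_ ?_
    · rw [Finset.insert_union, hU]
    · rw [Finset.insert_union, hU]
      intro x hx
      have hx' := Finset.mem_sdiff.1 hx
      refine Finset.mem_sdiff.2 ⟨hx'.1, fun h => hx'.2 ?_⟩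
      rcases Finset.mem_union.1 h with h | h
      · rcases Finset.mem_insert.1 h with h | h
        · exact Finset.mem_insert.2 (Or.inl h)
        · exact Finset.mem_insert_of_mem (Finset.mem_inter.1 h).1
      · exact Finset.mem_insert_of_mem (Finset.mem_inter.1 h).1
  have hcovU' : ∀ p q : ℕ, CovW G A (W ∩ A) p →
      CovW G (insert z B) (insert z (W ∩ B)) q → CovW G U W (p + q) := by
    intro p q hp hq
    refine cut_absorb hW hC hz ?_
    have hd : Disjoint A (insert z B) := by
      rw [Finset.disjoint_insert_right]; exact ⟨hzA, hAB⟩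
    refine (CovW.union hd hp hq).weaken ?_ ?_
    · rw [Finset.union_insert, hU]
    · rw [Finset.union_insert, hU]
      intro x hx
      have hx' := Finset.mem_sdiff.1 hx
      refine Finset.mem_sdiff.2 ⟨hx'.1, fun h => hx'.2 ?_⟩
      rcases Finset.mem_union.1 h with h | h
      · exact Finset.mem_insert_of_mem (Finset.mem_inter.1 h).1
      · rcases Finset.mem_insert.1 h with h | h
        · exact Finset.mem_insert.2 (Or.inl h)
        · exact Finset.mem_insert_of_mem (Finset.mem_inter.1 h).1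
  have hwk : ∀ (X : Finset V) (m : ℕ), CovW G X (W ∩ X) m →
      CovW G (insert z X) (insert z (W ∩ X)) m := by
    intro X m h
    refine h.weaken (Finset.subset_insert _ _) ?_
    intro x hx
    have hx' := Finset.mem_sdiff.1 hx
    rcases Finset.mem_insert.1 hx'.1 with h1 | h1
    · exact absurd (Finset.mem_insert.2 (Or.inl h1)) hx'.2
    · exact Finset.mem_sdiff.2 ⟨h1, fun h2 => hx'.2 (Finset.mem_insert_of_mem h2)⟩
  have hab : a + b = k + 1 := by
    by_contra hcon
    exact hk ((hcovU a b (hwk A a ha1) hb1).mono (by omega))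
  have hnA : ¬ CovW G (insert z A) (insert z (W ∩ A)) (a - 1) := by
    intro h
    exact hk ((hcovU (a - 1) b h hb1).mono (by omega))
  have hnB : ¬ CovW G (insert z B) (insert z (W ∩ B)) (b - 1) := by
    intro h
    exact hk ((hcovU' a (b - 1) ha1 h).mono (by omega))
  have hcA : (insert z A).card = A.card + 1 := Finset.card_insert_of_notMem hzA
  have hcB : (insert z B).card = B.card + 1 := Finset.card_insert_of_notMem hzB
  obtain ⟨I', hI1', hI2', hI3', hI4'⟩ := hIH (insert z A) (insert z (W ∩ A))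
    (Finset.insert_subset_insert _ Finset.inter_subset_right) (by omega) hCA' (a - 1) hnA
  obtain ⟨J', hJ1', hJ2', hJ3', hJ4'⟩ := hIH (insert z B) (insert z (W ∩ B))
    (Finset.insert_subset_insert _ Finset.inter_subset_right) (by omega) hCB' (b - 1) hnB
  have hsub : ∀ X I : Finset V, I ⊆ insert z X \ insert z (W ∩ X) → I ⊆ X ∧ Disjoint I W := by
    intro X I h
    have h1 : I ⊆ X := by
      intro x hx
      have h1 := Finset.mem_sdiff.1 (h hx)
      rcases Finset.mem_insert.1 h1.1 with h2 | h2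
      · exact absurd (Finset.mem_insert.2 (Or.inl h2)) h1.2
      · exact h2
    refine ⟨h1, Finset.disjoint_left.2 (fun x hx hxW => ?_)⟩
    exact (Finset.mem_sdiff.1 (h hx)).2
      (Finset.mem_insert_of_mem (Finset.mem_inter.2 ⟨hxW, h1 hx⟩))
  obtain ⟨hIA, hIW⟩ := hsub A I' hI1'
  obtain ⟨hJB, hJW⟩ := hsub B J' hJ1'
  obtain ⟨h1, h2, h3, h4⟩ := hun I' J' hIA hJB hIW hJW hI2' hJ2'
  have hsI : ∑ v ∈ I', dU G U v = ∑ v ∈ I', dU G (insert z A) v :=
    Finset.sum_congr rfl (fun v hv => hdA v (hIA hv))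
  have hsJ : ∑ v ∈ J', dU G U v = ∑ v ∈ J', dU G (insert z B) v :=
    Finset.sum_congr rfl (fun v hv => hdB v (hJB hv))
  refine ⟨I' ∪ J', h1, h2, by omega, by omega⟩

end Pool.Agent.H62P
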