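import Pool.Agent.TFB.Cross

/-! Induction frame with optional vertices: `G[U]`, `W ⊆ U` optional. -/

namespace Pool.Agent.H62P

open List Pool.Agent.TF82 Pool.Agent.TFC Pool.Agent.TFB

universe u

set_option linter.unusedSectionVars false
set_option linter.unusedVariables false

variable {V : Type u} [DecidableEq V]

/-- condition (C) with surplus `|W|` for the vertices of `U \ W` -/
def CW (G : SimpleGraph V) [DecidableRel G.Adj] (U W : Finset V) : Prop :=
  ∀ I : Finset V, I ⊆ U \ W → G.IsIndepSet (I : Set V) → ∀ v ∈ I, I.card + 1 + W.card ≤ dU G U v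

/-- at most `k` disjoint cycles inside `U` that cover `U \ W` -/
def CovW (G : SimpleGraph V) (U W : Finset V) (k : ℕ) : Prop :=
  ∃ L : List (List V), L.length ≤ k ∧ Fam G L ∧ (∀ x ∈ L.flatten, x ∈ U) ∧
    ∀ x ∈ U \ W, x ∈ L.flatten

/-- the statement of the induction -/
def PW (G : SimpleGraph V) [DecidableRel G.Adj] (U W : Finset V) : Prop :=
  ∀ k, ¬ CovW G U W k → ∃ I : Finset V, I ⊆ U \ W ∧ G.IsIndepSet (I : Set V) ∧ I.card = k + 1 ∧
    ∑ v ∈ I, dU G U v + 1 ≤ U.card

theorem CovW.mono {G : SimpleGraph V} {U W : Finset V} {k l : ℕ} (h : CovW G U W k)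
    (hkl : k ≤ l) : CovW G U W l := by
  obtain ⟨L, h1, h2, h3, h4⟩ := h
  exact ⟨L, h1.trans hkl, h2, h3, h4⟩

/-- a vertex between two consecutive vertices of a cycle -/
theorem ins_fam {G : SimpleGraph V} {L : List (List V)} (hL : Fam G L) {z w : V}
    (hz : z ∉ L.flatten) (hw : w ∈ L.flatten) (h1 : G.Adj z w) (h2 : G.Adj z (prv L w)) :
    ∃ L2, Fam G L2 ∧ L2.length ≤ L.length ∧ ∀ x, x ∈ L2.flatten ↔ x ∈ L.flatten ∨ x = z := by
  obtain ⟨P, L', hP, h3, hperm, hL', hlen⟩ := place1 hL hw
  have hnod : (P ++ L'.flatten).Nodup := hperm.nodup_iff.1 hL.nod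
  have hPz : z ∉ P := fun h => hz (hperm.mem_iff.2 (by simp [h]))
  have hLz : z ∉ L'.flatten := fun h => hz (hperm.mem_iff.2 (by simp [h]))
  have hseg := hP.seg hL (fun x hx => hperm.mem_iff.2 (by simp [hx]))
  have hcyc : CycL G (P ++ [z]) := by
    refine close_seg hseg ?_ ?_ ?_
    · simp only [List.singleton_append, List.isChain_cons_cons, List.isChain_singleton, and_true]
      exact ⟨h2.symm, h1⟩
    · rw [List.nodup_append]
      refine ⟨(List.nodup_append.1 hnod).1, by simp, ?_⟩
      rintro x hx y hy rfl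
      simp at hy
      exact hPz (hy ▸ hx)
    · simp; omega
  refine ⟨(P ++ [z]) :: L', ⟨?_, ?_⟩, ?_, ?_⟩
  · intro c hc
    rcases List.mem_cons.1 hc with rfl | hc
    · exact hcyc
    · exact hL' c hc
  · rw [List.flatten_cons, List.nodup_append]
    refine ⟨hcyc.1, (List.nodup_append.1 hnod).2.1, ?_⟩
    rintro x hx y hy rfl
    rcases List.mem_append.1 hx with hx | hx
    · exact (List.nodup_append.1 hnod).2.2 x hx x hy rfl
    · simp at hx
      exact hLz (hx ▸ hy)
  · simp; omega
  · intro x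
    rw [List.flatten_cons, List.mem_append, List.mem_append, hperm.mem_iff, List.mem_append,
      List.mem_singleton]
    exact or_right_comm

/-- absorption of a vertex through two adjacent predecessors -/
theorem cross_fam {G : SimpleGraph V} {L : List (List V)} (hL : Fam G L) {z w1 w2 : V}
    (hz : z ∉ L.flatten) (hw1 : w1 ∈ L.flatten) (hw2 : w2 ∈ L.flatten) (hne : w1 ≠ w2)
    (h1 : G.Adj z w1) (h2 : G.Adj z w2) (h : G.Adj (prv L w1) (prv L w2)) :
    ∃ L2, Fam G L2 ∧ L2.length ≤ L.length ∧ ∀ x, x ∈ L2.flatten ↔ x ∈ L.flatten ∨ x = z := by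
  obtain ⟨P, R, L', hperm, hL', hlen, h3, hPR⟩ := place2 hL hw1 hw2 hne
  have hnod : (P ++ (R ++ L'.flatten)).Nodup := hperm.nodup_iff.1 hL.nod
  have hPm : ∀ x ∈ P, x ∈ L.flatten := fun x hx => hperm.mem_iff.2 (by simp [hx])
  have hRm : ∀ x ∈ R, x ∈ L.flatten := fun x hx => hperm.mem_iff.2 (by simp [hx])
  have hLm : ∀ x ∈ L'.flatten, x ∈ L.flatten := fun x hx => hperm.mem_iff.2 (by simp [hx])
  have key : ∀ a b, G.Adj a b → Seg G P w1 a → Seg G R w2 b →
      CycL G ((P ++ R.reverse) ++ [z]) := by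
    intro a b hab hsP hsR
    have hsR' := hsR.rev
    have hs := link_seg hsP (X := []) (by simpa using hab) hsR'
    simp only [List.nil_append] at hs
    refine close_seg hs ?_ ?_ ?_
    · simp only [List.singleton_append, List.isChain_cons_cons, List.isChain_singleton, and_true]
      exact ⟨h2.symm, h1⟩
    · rw [List.nodup_append]
      refine ⟨?_, by simp, ?_⟩
      · have h5 : (P ++ R).Nodup := by
          rw [← List.append_assoc] at hnod
          exact (List.nodup_append.1 hnod).1
        exact (((List.Perm.refl P).append (List.reverse_perm R)).nodup_iff).2 h5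
      · rintro x hx y hy rfl
        simp at hy
        subst hy
        rcases List.mem_append.1 hx with hx | hx
        · exact hz (hPm _ hx)
        · exact hz (hRm _ (List.mem_reverse.1 hx))
    · simp; omega
  have hcyc : CycL G ((P ++ R.reverse) ++ [z]) := by
    rcases hPR with ⟨hP, hR⟩ | ⟨hP, hR⟩
    · exact key _ _ h.symm (hP.seg hL hPm) (hR.seg hL hRm)
    · exact key _ _ h (hP.seg hL hPm) (hR.seg hL hRm)
  refine ⟨((P ++ R.reverse) ++ [z]) :: L', ⟨?_, ?_⟩, ?_, ?_⟩
  · intro c hc
    rcases List.mem_cons.1 hc with rfl | hc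
    · exact hcyc
    · exact hL' c hc
  · rw [List.flatten_cons, List.nodup_append]
    rw [← List.append_assoc] at hnod
    refine ⟨hcyc.1, (List.nodup_append.1 hnod).2.1, ?_⟩
    rintro x hx y hy rfl
    rcases List.mem_append.1 hx with hx | hx
    · refine (List.nodup_append.1 hnod).2.2 x ?_ x hy rfl
      simpa using hx
    · simp at hx
      subst hx
      exact hz (hLm _ hy)
  · simp; omega
  · intro x
    rw [List.flatten_cons, List.mem_append, List.mem_append, List.mem_append, hperm.mem_iff,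
      List.mem_append, List.mem_append, List.mem_singleton, List.mem_reverse]
    generalize (x ∈ L'.flatten) = e
    tauto

/-- Lemma K: a vertex of `U \ W` is absorbed at no cost. -/
theorem absorb {G : SimpleGraph V} [DecidableRel G.Adj] {U W : Finset V} (hW : W ⊆ U) {z : V}
    (hz : z ∈ U \ W)
    (hC : ∀ I : Finset V, I ⊆ U \ W → G.IsIndepSet (I : Set V) → z ∈ I →
      I.card + 1 + W.card ≤ dU G U z) {k : ℕ}
    (h : ∃ L : List (List V), L.length ≤ k ∧ Fam G L ∧ (∀ x ∈ L.flatten, x ∈ U) ∧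
      ∀ x ∈ U \ W, x ≠ z → x ∈ L.flatten) : CovW G U W k := by
  obtain ⟨L, hk, hL, hLU, hLc⟩ := h
  by_cases hzL : z ∈ L.flatten
  · refine ⟨L, hk, hL, hLU, fun x hx => ?_⟩
    by_cases hxz : x = z
    · rw [hxz]; exact hzL
    · exact hLc x hx hxz
  by_cases hgood : ∃ L2, Fam G L2 ∧ L2.length ≤ L.length ∧
      ∀ x, x ∈ L2.flatten ↔ x ∈ L.flatten ∨ x = z
  · obtain ⟨L2, h1, h2, h3⟩ := hgood
    refine ⟨L2, h2.trans hk, h1, ?_, ?_⟩
    · intro x hx
      rcases (h3 x).1 hx with hx | rfl
      · exact hLU x hx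
      · exact (Finset.mem_sdiff.1 hz).1
    · intro x hx
      rw [h3]
      by_cases hxz : x = z
      · exact Or.inr hxz
      · exact Or.inl (hLc x hx hxz)
  exfalso
  set N : Finset V := L.flatten.toFinset.filter (fun w => G.Adj z w) with hN
  have hNm : ∀ w, w ∈ N ↔ w ∈ L.flatten ∧ G.Adj z w := by
    intro w; rw [hN, Finset.mem_filter, List.mem_toFinset]
  set P : Finset V := (N.image (prv L)) \ W with hP
  have hPm : ∀ p ∈ P, ∃ w ∈ L.flatten, G.Adj z w ∧ prv L w = p := by
    intro p hp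
    obtain ⟨w, hw, rfl⟩ := Finset.mem_image.1 (Finset.mem_sdiff.1 hp).1
    exact ⟨w, ((hNm w).1 hw).1, ((hNm w).1 hw).2, rfl⟩
  have hzP : z ∉ P := by
    intro h
    obtain ⟨w, hw, _, h2⟩ := hPm z h
    exact hzL (h2 ▸ prv_mem hL hw)
  have hsub : insert z P ⊆ U \ W := by
    intro x hx
    rcases Finset.mem_insert.1 hx with rfl | hx
    · exact hz
    · obtain ⟨w, hw, _, h2⟩ := hPm x hx
      exact Finset.mem_sdiff.2 ⟨hLU _ (h2 ▸ prv_mem hL hw), (Finset.mem_sdiff.1 hx).2⟩
  have hzp : ∀ p ∈ P, ¬ G.Adj z p := by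
    intro p hp hadj
    obtain ⟨w, hw, h1, rfl⟩ := hPm p hp
    exact hgood (ins_fam hL hzL hw h1 hadj)
  have hind : G.IsIndepSet ((insert z P : Finset V) : Set V) := by
    intro a ha b hb hab
    rw [Finset.mem_coe, Finset.mem_insert] at ha hb
    rcases ha with rfl | ha <;> rcases hb with rfl | hb
    · exact absurd rfl hab
    · exact hzp b hb
    · intro h; exact hzp a ha h.symm
    · obtain ⟨w, hw, h1, rfl⟩ := hPm a ha
      obtain ⟨w', hw', h1', rfl⟩ := hPm b hb
      intro hadj
      refine hgood (cross_fam hL hzL hw hw' ?_ h1 h1' hadj)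
      rintro rfl
      exact hab rfl
  have key := hC _ hsub hind (Finset.mem_insert_self _ _)
  rw [Finset.card_insert_of_notMem hzP] at key
  -- cardinalities
  have hcI : (N.image (prv L)).card = N.card := by
    refine Finset.card_image_of_injOn ?_
    intro a ha b hb hab
    exact prv_inj hL ((hNm a).1 (Finset.mem_coe.1 ha)).1 ((hNm b).1 (Finset.mem_coe.1 hb)).1 hab
  have hImL : ∀ p ∈ N.image (prv L), p ∈ L.flatten := by
    intro p hp
    obtain ⟨w, hw, rfl⟩ := Finset.mem_image.1 hp
    exact prv_mem hL ((hNm w).1 hw).1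
  have h1 : N.card ≤ P.card + (W.filter (fun x => x ∈ L.flatten)).card := by
    rw [← hcI]
    have : N.image (prv L) ⊆ P ∪ (W.filter (fun x => x ∈ L.flatten)) := by
      intro p hp
      by_cases hpW : p ∈ W
      · exact Finset.mem_union_right _ (Finset.mem_filter.2 ⟨hpW, hImL p hp⟩)
      · exact Finset.mem_union_left _ (Finset.mem_sdiff.2 ⟨hp, hpW⟩)
    exact (Finset.card_le_card this).trans (Finset.card_union_le _ _)
  have h2 : dU G U z ≤ N.card + (W.filter (fun x => x ∉ L.flatten)).card := by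
    unfold dU
    have : U.filter (fun w => G.Adj z w) ⊆ N ∪ (W.filter (fun x => x ∉ L.flatten)) := by
      intro w hw
      rw [Finset.mem_filter] at hw
      by_cases hwL : w ∈ L.flatten
      · exact Finset.mem_union_left _ ((hNm w).2 ⟨hwL, hw.2⟩)
      · refine Finset.mem_union_right _ (Finset.mem_filter.2 ⟨?_, hwL⟩)
        by_contra hwW
        exact hwL (hLc w (Finset.mem_sdiff.2 ⟨hw.1, hwW⟩) (fun h => G.loopless.irrefl _ (h ▸ hw.2)))
    exact (Finset.card_le_card this).trans (Finset.card_union_le _ _)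
  have h3 := Finset.card_filter_add_card_filter_not (s := W) (fun x => x ∈ L.flatten)
  omega

end Pool.Agent.H62P
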