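import Pool.Agent.H62P.TransP
import Pool.Agent.H92P.CutStep

/-! Everything except the 2-connected step. -/

namespace Pool.Agent.H62P

open List Pool.Agent.TF82 Pool.Agent.TFC Pool.Agent.TFB

universe u

/-- the main step of the frame from the 2-connected step of the package -/
theorem mainStep_of_mainP (hmain : MainStepP.{u}) : MainStep.{u} :=
  mainStep_of_pkg H92P.cutStepP sideStepP hmain transferP

/-- Q1 for all `k` and all orders from the 2-connected step of the package -/
theorem q1_of_mainP (hmain : MainStepP.{u}) {V : Type u} [Fintype V]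
    [DecidableEq V] (G : SimpleGraph V) [DecidableRel G.Adj] (k : ℕ)
    (hC : ∀ I : Finset V, G.IsIndepSet (I : Set V) → ∀ v ∈ I,
      I.card + 1 ≤ dU G Finset.univ v)
    (hσ : ∀ I : Finset V, G.IsIndepSet (I : Set V) → I.card = k + 1 →
      Fintype.card V ≤ ∑ v ∈ I, dU G Finset.univ v) : Cov G k :=
  cov_all_of_main (mainStep_of_mainP hmain) G k hC hσ

end Pool.Agent.H62P
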