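import Pool.Agent.H62P.Transfer
import Pool.Agent.EG31.Gallai

/-! Skeleton of the induction: reduction to the 2-connected case. -/

namespace Pool.Agent.H62P

open List Pool.Agent.TF82 Pool.Agent.TFC Pool.Agent.TFB Pool.Agent.EG31

universe u

set_option linter.unusedSectionVars false
set_option linter.unusedVariables false

variable {V : Type u} [DecidableEq V]

/-- nothing has to be covered -/
theorem PW_empty {G : SimpleGraph V} [DecidableRel G.Adj] {U W : Finset V}
    (h : ¬ (U \ W).Nonempty) : PW G U W := by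
  intro k hk
  exfalso
  apply hk
  refine ⟨[], by simp, ⟨by simp, by simp⟩, by simp, ?_⟩
  intro x hx
  exact absurd ⟨x, hx⟩ h

/-- CUT VERTEX, trivial case: one side is optional. -/
theorem PW_side {G : SimpleGraph V} [DecidableRel G.Adj] {U W A B : Finset V} {z : V}
    (hW : W ⊆ U) (hC : CW G U W) (hz : z ∈ U) (hU : insert z (A ∪ B) = U)
    (hAB : Disjoint A B) (hzA : z ∉ A) (hzB : z ∉ B) (hno : ∀ a ∈ A, ∀ b ∈ B, ¬ G.Adj a b)
    (hB : B ⊆ W)
    (hIH : CW G (insert z A) (W ∩ insert z A) → PW G (insert z A) (W ∩ insert z A)) :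
    PW G U W := by
  have hU' : insert z A ∪ B = U := by rw [Finset.insert_union, hU]
  have hAU : insert z A ⊆ U := by rw [← hU']; exact Finset.subset_union_left
  have hBU : B ⊆ U := by rw [← hU']; exact Finset.subset_union_right
  have hdis : Disjoint (insert z A) B := by
    rw [Finset.disjoint_insert_left]
    exact ⟨hzB, hAB⟩
  have hcU : U.card = (insert z A).card + B.card := by
    rw [← hU', Finset.card_union_of_disjoint hdis]
  have hcW : (W ∩ insert z A).card + B.card ≤ W.card := by
    rw [← Finset.card_union_of_disjoint]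
    · exact Finset.card_le_card (Finset.union_subset Finset.inter_subset_left hB)
    · exact Finset.disjoint_of_subset_left Finset.inter_subset_right hdis
  have hd : ∀ v, dU G U v ≤ dU G (insert z A) v + B.card := by
    intro v
    rw [← hU']
    exact (dU_union_le _ _ v).trans (Nat.add_le_add_left (dU_le _ _) _)
  have hdA : ∀ v ∈ A, dU G U v = dU G (insert z A) v := by
    intro v hv
    rw [← hU']
    exact dU_union_of_no (fun b hb => hno v hv b hb)
  have hsd : (insert z A) \ (W ∩ insert z A) ⊆ U \ W := by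
    intro x hx
    have := Finset.mem_sdiff.1 hx
    exact Finset.mem_sdiff.2 ⟨hAU this.1, fun h => this.2 (Finset.mem_inter.2 ⟨h, this.1⟩)⟩
  have hCA : CW G (insert z A) (W ∩ insert z A) := by
    intro I hI hind v hv
    have h1 := hC I (hI.trans hsd) hind v hv
    have h2 := hd v
    omega
  intro k hk
  obtain ⟨I, h1, h2, h3, h4⟩ := hIH hCA k (by
    intro h
    apply hk
    refine h.weaken hAU ?_
    intro x hx
    have hx' := Finset.mem_sdiff.1 hx
    have : x ∈ insert z A := by
      have h5 : x ∈ insert z A ∪ B := by rw [hU']; exact hx'.1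
      rcases Finset.mem_union.1 h5 with h | h
      · exact h
      · exact absurd (hB h) hx'.2
    exact Finset.mem_sdiff.2 ⟨this, fun h => hx'.2 (Finset.mem_inter.1 h).1⟩)
  refine ⟨I, h1.trans hsd, h2, h3, ?_⟩
  have hIs : I ⊆ insert z A := h1.trans Finset.sdiff_subset
  have hsum : ∑ v ∈ I, dU G U v ≤ ∑ v ∈ I, dU G (insert z A) v + B.card := by
    by_cases hzI : z ∈ I
    · have e1 := Finset.add_sum_erase I (fun v => dU G U v) hzI
      have e2 := Finset.add_sum_erase I (fun v => dU G (insert z A) v) hzI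
      have e3 : ∑ v ∈ I.erase z, dU G U v = ∑ v ∈ I.erase z, dU G (insert z A) v := by
        refine Finset.sum_congr rfl (fun v hv => hdA v ?_)
        have hv' := Finset.mem_erase.1 hv
        rcases Finset.mem_insert.1 (hIs hv'.2) with h | h
        · exact absurd h hv'.1
        · exact h
      have e4 := hd z
      omega
    · have e3 : ∑ v ∈ I, dU G U v = ∑ v ∈ I, dU G (insert z A) v := by
        refine Finset.sum_congr rfl (fun v hv => hdA v ?_)
        rcases Finset.mem_insert.1 (hIs hv) with h | h
        · exact absurd (h ▸ hv) hzI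
        · exact h
      omega
  omega

/-- the induction hypothesis for smaller graphs gives it for proper subsets -/
theorem IH_sub {n : ℕ}
    (ih : ∀ (V' : Type u) [Fintype V'] [DecidableEq V'] (G' : SimpleGraph V')
      [DecidableRel G'.Adj] (W' : Finset V'), Fintype.card V' < n → CW G' Finset.univ W' →
      PW G' Finset.univ W')
    (G : SimpleGraph V) [DecidableRel G.Adj] (U W : Finset V) (hU : U.card < n) (hW : W ⊆ U)
    (hC : CW G U W) : PW G U W := by
  refine PW.of_sub (ih _ _ _ ?_ (CW.sub hW hC))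
  simpa using hU

/-- a graph that is not connected splits -/
theorem exists_split {G : SimpleGraph V} {S : Finset V} (h : ¬ Conn1 G S) :
    ∃ A B : Finset V, A ∪ B = S ∧ Disjoint A B ∧ A.Nonempty ∧ B.Nonempty ∧
      ∀ a ∈ A, ∀ b ∈ B, ¬ G.Adj a b := by
  classical
  unfold Conn1 at h
  push Not at h
  obtain ⟨a, ha, b, hb, hr⟩ := h
  refine ⟨S.filter (fun x => Reach G S a x), S.filter (fun x => ¬ Reach G S a x), ?_, ?_, ?_, ?_, ?_⟩
  · exact Finset.filter_union_filter_not_eq _ _
  · exact Finset.disjoint_filter_filter_not _ _ _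
  · exact ⟨a, Finset.mem_filter.2 ⟨ha, Relation.ReflTransGen.refl⟩⟩
  · exact ⟨b, Finset.mem_filter.2 ⟨hb, hr⟩⟩
  · intro x hx y hy hadj
    rw [Finset.mem_filter] at hx hy
    exact hy.2 (Relation.ReflTransGen.tail hx.2 ⟨hx.1, hy.1, hadj⟩)

/-- the final consequence -/
theorem cov_of_PW [Fintype V] {G : SimpleGraph V} [DecidableRel G.Adj] {k : ℕ}
    (hP : PW G Finset.univ ∅)
    (hσ : ∀ I : Finset V, G.IsIndepSet (I : Set V) → I.card = k + 1 →
      Fintype.card V ≤ ∑ v ∈ I, dU G Finset.univ v) : Cov G k := by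
  by_contra hcon
  obtain ⟨I, h1, h2, h3, h4⟩ := hP k (by
    rintro ⟨L, h1, h2, h3, h4⟩
    exact hcon ⟨L, h1, h2.cyc, h2.nod, fun x => h4 x (by simp)⟩)
  have := hσ I h2 h3
  rw [Finset.card_univ] at h4
  omega

end Pool.Agent.H62P
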