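import Pool.Agent.H62P.Skel

/-! The induction: only the 2-connected case has to be proved. -/

namespace Pool.Agent.H62P

open List Pool.Agent.TF82 Pool.Agent.TFC Pool.Agent.TFB Pool.Agent.EG31

universe u

set_option linter.unusedSectionVars false
set_option linter.unusedVariables false

/-- the statement for all graphs on fewer than `n` vertices -/
def IHn (n : ℕ) : Prop :=
  ∀ (V' : Type u) [Fintype V'] [DecidableEq V'] (G' : SimpleGraph V')
    [DecidableRel G'.Adj] (W' : Finset V'), Fintype.card V' < n → CW G' Finset.univ W' →
      PW G' Finset.univ W'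

/-- the 2-connected case of the induction step -/
def MainStep : Prop :=
  ∀ (V : Type u) [Fintype V] [DecidableEq V] (G : SimpleGraph V) [DecidableRel G.Adj]
    (W : Finset V), CW G Finset.univ W → (Finset.univ \ W).Nonempty → Conn1 G Finset.univ →
    Conn2 G Finset.univ → IHn.{u} (Fintype.card V) → PW G Finset.univ W

/-- the cut vertex step -/
def CutStep : Prop :=
  ∀ (V : Type u) [Fintype V] [DecidableEq V] (G : SimpleGraph V) [DecidableRel G.Adj]
    (U W A B : Finset V) (z : V), W ⊆ U → CW G U W → z ∈ U → insert z (A ∪ B) = U →
    Disjoint A B → z ∉ A → z ∉ B → (∀ a ∈ A, ∀ b ∈ B, ¬ G.Adj a b) →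
    (A \ W).Nonempty → (B \ W).Nonempty →
    (∀ U' W', W' ⊆ U' → U'.card < U.card → CW G U' W' → PW G U' W') → PW G U W

theorem PW_all (hcut : CutStep.{u}) (hmain : MainStep.{u}) :
    ∀ (n : ℕ), IHn.{u} n := by
  intro n
  induction n with
  | zero => intro V' _ _ G' _ W' h; exact absurd h (Nat.not_lt_zero _)
  | succ n ih =>
    intro V _ _ G _ W hcard hC
    rcases Nat.lt_or_ge (Fintype.card V) n with hlt | hge
    · exact ih V G W hlt hC
    have hn : Fintype.card V = n := by omega
    have hIH : IHn.{u} (Fintype.card V) := by rw [hn]; exact ih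
    have hsub : ∀ (U' W' : Finset V), W' ⊆ U' → U'.card < (Finset.univ : Finset V).card →
        CW G U' W' → PW G U' W' := by
      intro U' W' hW' hU' hC'
      rw [Finset.card_univ] at hU'
      exact IH_sub hIH G U' W' hU' hW' hC'
    by_cases hne : (Finset.univ \ W).Nonempty
    swap
    · exact PW_empty hne
    by_cases h1 : Conn1 G Finset.univ
    swap
    · obtain ⟨A, B, hAB, hd, hA, hB, hno⟩ := exists_split h1
      have hcA : A.card < (Finset.univ : Finset V).card := by
        rw [← hAB, Finset.card_union_of_disjoint hd]
        have := Finset.card_pos.2 hB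
        omega
      have hcB : B.card < (Finset.univ : Finset V).card := by
        rw [← hAB, Finset.card_union_of_disjoint hd]
        have := Finset.card_pos.2 hA
        omega
      have hdA : ∀ v ∈ A, dU G Finset.univ v = dU G A v := by
        intro v hv
        rw [← hAB]
        exact dU_union_of_no (fun b hb => hno v hv b hb)
      have hdB : ∀ v ∈ B, dU G Finset.univ v = dU G B v := by
        intro v hv
        rw [← hAB, Finset.union_comm]
        exact dU_union_of_no (fun a ha h => hno a ha v hv h.symm)
      have hCX : ∀ X : Finset V, (∀ v ∈ X, dU G Finset.univ v = dU G X v) →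
          CW G X (W ∩ X) := by
        intro X hX I hI hind v hv
        have h0 : I ⊆ Finset.univ \ W := by
          intro x hx
          have := Finset.mem_sdiff.1 (hI hx)
          exact Finset.mem_sdiff.2 ⟨Finset.mem_univ _,
            fun h => this.2 (Finset.mem_inter.2 ⟨h, this.1⟩)⟩
        have h1 := hC I h0 hind v hv
        rw [hX v (Finset.mem_sdiff.1 (hI hv)).1] at h1
        have h2 : (W ∩ X).card ≤ W.card := Finset.card_le_card Finset.inter_subset_left
        omega
      exact PW_disj (Finset.subset_univ _) hC hAB hd hno
        (hsub A _ Finset.inter_subset_right hcA (hCX A hdA))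
        (hsub B _ Finset.inter_subset_right hcB (hCX B hdB))
    by_cases h2 : Conn2 G Finset.univ
    · exact hmain V G W hC hne h1 h2 hIH
    -- a cut vertex
    unfold Conn2 at h2
    push Not at h2
    obtain ⟨z, hz, hz2⟩ := h2
    obtain ⟨A, B, hAB, hd, hA, hB, hno⟩ := exists_split hz2
    have hzA : z ∉ A := fun h => by
      have : z ∈ Finset.univ.erase z := hAB ▸ Finset.mem_union_left _ h
      simp at this
    have hzB : z ∉ B := fun h => by
      have : z ∈ Finset.univ.erase z := hAB ▸ Finset.mem_union_right _ h
      simp at this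
    have hU : insert z (A ∪ B) = Finset.univ := by
      rw [hAB]
      exact Finset.insert_erase hz
    have hcU : (Finset.univ : Finset V).card = 1 + (A.card + B.card) := by
      rw [← hU, Finset.card_insert_of_notMem (by
        rw [Finset.mem_union]; push Not; exact ⟨hzA, hzB⟩), Finset.card_union_of_disjoint hd]
      omega
    have hAp := Finset.card_pos.2 hA
    have hBp := Finset.card_pos.2 hB
    by_cases hAW : (A \ W).Nonempty
    swap
    · have hAs : A ⊆ W := by
        intro x hx
        by_contra hxW
        exact hAW ⟨x, Finset.mem_sdiff.2 ⟨hx, hxW⟩⟩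
      refine PW_side (A := B) (B := A) (z := z) (Finset.subset_univ _) hC hz
        (by rw [Finset.union_comm, hU]) hd.symm hzB hzA
        (fun b hb a ha h => hno a ha b hb h.symm) hAs ?_
      intro hCB
      refine hsub _ _ Finset.inter_subset_right ?_ hCB
      rw [Finset.card_insert_of_notMem hzB]
      omega
    by_cases hBW : (B \ W).Nonempty
    swap
    · have hBs : B ⊆ W := by
        intro x hx
        by_contra hxW
        exact hBW ⟨x, Finset.mem_sdiff.2 ⟨hx, hxW⟩⟩
      refine PW_side (A := A) (B := B) (z := z) (Finset.subset_univ _) hC hz hU hd hzA hzB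
        hno hBs ?_
      intro hCA
      refine hsub _ _ Finset.inter_subset_right ?_ hCA
      rw [Finset.card_insert_of_notMem hzA]
      omega
    exact hcut V G Finset.univ W A B z (Finset.subset_univ _) hC hz hU hd hzA hzB hno hAW hBW
      (fun U' W' hW' hU' hC' => hsub U' W' hW' hU' hC')

/-- Q1 for every `k` and every order follows from the two steps. -/
theorem cov_all_of_steps (hcut : CutStep.{u}) (hmain : MainStep.{u}) {V : Type u} [Fintype V]
    [DecidableEq V] (G : SimpleGraph V) [DecidableRel G.Adj] (k : ℕ)
    (hC : ∀ I : Finset V, G.IsIndepSet (I : Set V) → ∀ v ∈ I,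
      I.card + 1 ≤ dU G Finset.univ v)
    (hσ : ∀ I : Finset V, G.IsIndepSet (I : Set V) → I.card = k + 1 →
      Fintype.card V ≤ ∑ v ∈ I, dU G Finset.univ v) : Cov G k := by
  refine cov_of_PW (PW_all hcut hmain (Fintype.card V + 1) V G ∅ (Nat.lt_succ_self _) ?_) hσ
  intro I _ hind v hv
  simpa using hC I hind v hv

end Pool.Agent.H62P
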