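import Pool.Agent.H62P.Steps

/-! Transfer of the induction statement to induced subgraphs. -/

namespace Pool.Agent.H62P

open List Pool.Agent.TF82 Pool.Agent.TFC Pool.Agent.TFB

universe u

set_option linter.unusedSectionVars false
set_option linter.unusedVariables false

variable {V : Type u} [DecidableEq V]

/-- the optional vertices in the induced subgraph -/
def subW (U W : Finset V) : Finset {x // x ∈ U} := Finset.univ.filter (fun x => x.1 ∈ W)

theorem mem_subW {U W : Finset V} {x : {x // x ∈ U}} : x ∈ subW U W ↔ x.1 ∈ W := by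
  simp [subW]

theorem card_subW {U W : Finset V} (hW : W ⊆ U) : (subW U W).card = W.card := by
  rw [← Finset.card_map ⟨Subtype.val, Subtype.val_injective⟩]
  congr 1
  ext x
  rw [Finset.mem_map]
  constructor
  · rintro ⟨y, hy, rfl⟩
    exact mem_subW.1 hy
  · intro hx
    exact ⟨⟨x, hW hx⟩, mem_subW.2 hx, rfl⟩

theorem dU_sub {G : SimpleGraph V} [DecidableRel G.Adj] {U : Finset V} (x : {x // x ∈ U}) :
    dU (G.comap (Subtype.val : {x // x ∈ U} → V)) Finset.univ x = dU G U x.1 := by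
  unfold dU
  rw [← Finset.card_map ⟨Subtype.val, Subtype.val_injective⟩]
  congr 1
  ext y
  rw [Finset.mem_map, Finset.mem_filter]
  constructor
  · rintro ⟨z, hz, rfl⟩
    exact ⟨z.2, (Finset.mem_filter.1 hz).2⟩
  · rintro ⟨hy, hadj⟩
    exact ⟨⟨y, hy⟩, Finset.mem_filter.2 ⟨Finset.mem_univ _, hadj⟩, rfl⟩

theorem CycL.map_sub {G : SimpleGraph V} {U : Finset V} {l : List {x // x ∈ U}}
    (h : CycL (G.comap (Subtype.val : {x // x ∈ U} → V)) l) : CycL G (l.map Subtype.val) := by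
  obtain ⟨h1, h2, h3, h4⟩ := h
  refine ⟨h1.map Subtype.val_injective, by simpa using h2, ?_, ?_⟩
  · rw [List.isChain_map]
    exact h3
  · intro x hx y hy
    rw [List.getLast?_map] at hx
    rw [List.head?_map] at hy
    obtain ⟨x', hx', rfl⟩ := Option.mem_map.1 hx
    obtain ⟨y', hy', rfl⟩ := Option.mem_map.1 hy
    exact h4 x' hx' y' hy'

theorem CovW.of_sub {G : SimpleGraph V} {U W : Finset V} {k : ℕ}
    (h : CovW (G.comap (Subtype.val : {x // x ∈ U} → V)) Finset.univ (subW U W) k) :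
    CovW G U W k := by
  obtain ⟨L, h1, h2, h3, h4⟩ := h
  refine ⟨L.map (fun l => l.map Subtype.val), by simpa using h1, ⟨?_, ?_⟩, ?_, ?_⟩
  · intro c hc
    obtain ⟨l, hl, rfl⟩ := List.mem_map.1 hc
    exact CycL.map_sub (h2.cyc l hl)
  · rw [← List.map_flatten]
    exact h2.nod.map Subtype.val_injective
  · intro x hx
    rw [← List.map_flatten] at hx
    obtain ⟨y, _, rfl⟩ := List.mem_map.1 hx
    exact y.2
  · intro x hx
    have hx' := Finset.mem_sdiff.1 hx
    rw [← List.map_flatten]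
    refine List.mem_map.2 ⟨⟨x, hx'.1⟩, h4 _ ?_, rfl⟩
    exact Finset.mem_sdiff.2 ⟨Finset.mem_univ _, fun h => hx'.2 (mem_subW.1 h)⟩

theorem CW.sub {G : SimpleGraph V} [DecidableRel G.Adj] {U W : Finset V} (hW : W ⊆ U)
    (hC : CW G U W) :
    CW (G.comap (Subtype.val : {x // x ∈ U} → V)) Finset.univ (subW U W) := by
  intro I hI hind v hv
  rw [dU_sub, card_subW hW]
  have h1 := hC (I.map ⟨Subtype.val, Subtype.val_injective⟩) (by
      intro x hx
      obtain ⟨y, hy, rfl⟩ := Finset.mem_map.1 hx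
      exact Finset.mem_sdiff.2 ⟨y.2, fun h => (Finset.mem_sdiff.1 (hI hy)).2 (mem_subW.2 h)⟩) (by
      intro x hx y hy hxy
      obtain ⟨x', hx', rfl⟩ := Finset.mem_map.1 (Finset.mem_coe.1 hx)
      obtain ⟨y', hy', rfl⟩ := Finset.mem_map.1 (Finset.mem_coe.1 hy)
      exact hind hx' hy' (fun h => hxy (by rw [h]))) v.1
      (Finset.mem_map.2 ⟨v, hv, rfl⟩)
  rwa [Finset.card_map] at h1

theorem PW.of_sub {G : SimpleGraph V} [DecidableRel G.Adj] {U W : Finset V}
    (h : PW (G.comap (Subtype.val : {x // x ∈ U} → V)) Finset.univ (subW U W)) :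
    PW G U W := by
  intro k hk
  obtain ⟨I, h1, h2, h3, h4⟩ := h k (fun hc => hk hc.of_sub)
  refine ⟨I.map ⟨Subtype.val, Subtype.val_injective⟩, ?_, ?_, by rw [Finset.card_map, h3], ?_⟩
  · intro x hx
    obtain ⟨y, hy, rfl⟩ := Finset.mem_map.1 hx
    exact Finset.mem_sdiff.2 ⟨y.2, fun h => (Finset.mem_sdiff.1 (h1 hy)).2 (mem_subW.2 h)⟩
  · intro x hx y hy hxy
    obtain ⟨x', hx', rfl⟩ := Finset.mem_map.1 (Finset.mem_coe.1 hx)
    obtain ⟨y', hy', rfl⟩ := Finset.mem_map.1 (Finset.mem_coe.1 hy)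
    exact h2 hx' hy' (fun h => hxy (by rw [h]))
  · rw [Finset.sum_map]
    simp only [dU_sub] at h4
    simpa using h4

end Pool.Agent.H62P
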